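import Pool.Agent.H6.Ivrii.Orbit

/-!
JOB IV-9. A straight or circular smooth regular arc is a `Mirror`: the reflection law of the problem (normal `(-γ'_2, γ'_1)`) is `Mirror.refl`.

Straight: `a γ_1 + b γ_2 = c` on `(0,1)`; differentiate: `a γ'_1 + b γ'_2 = 0`, so `(-γ'_2, γ'_1)` is a multiple of `(a, b)`; `ν = (a + b i) / |a + b i|`, `h = c / |a + b i|`.
Circular: differentiate `(γ_1 - x)^2 + (γ_2 - y)^2 = r^2`: `(-γ'_2, γ'_1)` is a (nonzero) multiple of `γ - (x, y)`.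
In both cases `V - 2 (V · N) N / |N|^2 = - u^2 conj V` with `u = N / |N|` as complex numbers.
-/

set_option autoImplicit false

namespace Pool.Agent.H6.Ivrii

open ComplexConjugate

/-- the point of `ℂ` -/
def toC (p : ℝ × ℝ) : ℂ := ⟨p.1, p.2⟩

/-- the arc is contained in a line or in a circle -/
def StraightOrCircular (γ : ℝ → ℝ × ℝ) : Prop :=
  (∃ a b c : ℝ, (a, b) ≠ (0, 0) ∧ ∀ s ∈ Set.Icc (0 : ℝ) 1, a * (γ s).1 + b * (γ s).2 = c) ∨
  (∃ x y r : ℝ, 0 < r ∧ ∀ s ∈ Set.Icc (0 : ℝ) 1, ((γ s).1 - x) ^ 2 + ((γ s).2 - y) ^ 2 = r ^ 2)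

theorem refl_aux (d V : ℝ × ℝ) (hd : d ≠ 0) (u : ℂ) (hu : u.re ^ 2 + u.im ^ 2 = 1)
    (h : u.re * d.1 + u.im * d.2 = 0) :
    toC (V - (2 * (V.1 * (-d.2) + V.2 * d.1) / (d.1 ^ 2 + d.2 ^ 2)) • (-d.2, d.1)) =
      -u ^ 2 * conj (toC V) := by
  set k := -d.2 * u.re + d.1 * u.im with hk
  have h1 : d.2 = -(k * u.re) := by
    rw [hk]
    linear_combination (-d.2) * hu + u.im * h
  have h2 : d.1 = k * u.im := by
    rw [hk]
    linear_combination (-d.1) * hu + u.re * h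
  have hk0 : k ≠ 0 := by
    intro h0
    apply hd
    rw [h0] at h1 h2
    ext
    · simpa using h2
    · simpa using h1
  have h3 : d.1 ^ 2 + d.2 ^ 2 = k ^ 2 := by
    rw [h1, h2]
    linear_combination k ^ 2 * hu
  have h4 : 2 * (V.1 * (-d.2) + V.2 * d.1) / (d.1 ^ 2 + d.2 ^ 2) =
      2 * (V.1 * u.re + V.2 * u.im) / k := by
    rw [h3, h1, h2]
    field_simp
  rw [h4]
  apply Complex.ext
  · have e1 : (toC (V - (2 * (V.1 * u.re + V.2 * u.im) / k) • (-d.2, d.1))).re =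
        V.1 - (2 * (V.1 * u.re + V.2 * u.im) / k) * (-d.2) := rfl
    have e2 : (-u ^ 2 * conj (toC V)).re =
        -((u.re * u.re - u.im * u.im) * V.1 + (u.re * u.im + u.im * u.re) * V.2) := by
      simp only [pow_two, Complex.mul_re, Complex.neg_re, Complex.neg_im, Complex.mul_im,
        Complex.conj_re, Complex.conj_im, toC]
      ring
    rw [e1, e2, h1]
    field_simp
    linear_combination -V.1 * hu
  · have e1 : (toC (V - (2 * (V.1 * u.re + V.2 * u.im) / k) • (-d.2, d.1))).im =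
        V.2 - (2 * (V.1 * u.re + V.2 * u.im) / k) * d.1 := rfl
    have e2 : (-u ^ 2 * conj (toC V)).im =
        (u.re * u.re - u.im * u.im) * V.2 - (u.re * u.im + u.im * u.re) * V.1 := by
      simp only [pow_two, Complex.mul_re, Complex.neg_re, Complex.neg_im, Complex.mul_im,
        Complex.conj_re, Complex.conj_im, toC]
      ring
    rw [e1, e2, h2]
    field_simp
    linear_combination -V.2 * hu

theorem arc_mirror (γ : ℝ → ℝ × ℝ) (hd : Differentiable ℝ γ)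
    (hreg : ∀ s ∈ Set.Icc (0 : ℝ) 1, deriv γ s ≠ 0) (hsh : StraightOrCircular γ) :
    ∃ M : Mirror, M.ok ∧
      (∀ s ∈ Set.Ioo (0 : ℝ) 1, ∀ V : ℝ × ℝ, M.refl (toC (γ s)) (toC V)
        (toC (V - (2 * (V.1 * (-(deriv γ s).2) + V.2 * (deriv γ s).1) /
          ((deriv γ s).1 ^ 2 + (deriv γ s).2 ^ 2)) • (-(deriv γ s).2, (deriv γ s).1)))) ∧
      ((∃ (ν : ℂ) (h : ℝ), ‖ν‖ = 1 ∧ ∀ s ∈ Set.Ioo (0 : ℝ) 1, (conj ν * toC (γ s)).re = h) ∨
        (∃ (c : ℂ) (r : ℝ), 0 < r ∧ ∀ s ∈ Set.Ioo (0 : ℝ) 1, ‖toC (γ s) - c‖ = r)) := by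
  have hder : ∀ s : ℝ, HasDerivAt (fun t => (γ t).1) (deriv γ s).1 s ∧
      HasDerivAt (fun t => (γ t).2) (deriv γ s).2 s := by
    intro s
    have h := (hd s).hasDerivAt
    exact ⟨h.fst, h.snd⟩
  rcases hsh with ⟨a, b, c, hab, hl⟩ | ⟨x, y, r, hr, hl⟩
  · -- straight
    set ρ := Real.sqrt (a ^ 2 + b ^ 2) with hρ
    have hpos : 0 < a ^ 2 + b ^ 2 := by
      by_contra hcon
      have ha : a = 0 := by nlinarith [sq_nonneg a, sq_nonneg b]
      have hb : b = 0 := by nlinarith [sq_nonneg a, sq_nonneg b]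
      exact hab (by rw [ha, hb])
    have hρ0 : 0 < ρ := Real.sqrt_pos.2 hpos
    have hρ2 : ρ ^ 2 = a ^ 2 + b ^ 2 := Real.sq_sqrt hpos.le
    set ν : ℂ := ⟨a / ρ, b / ρ⟩ with hν
    have hν1 : ν.re ^ 2 + ν.im ^ 2 = 1 := by
      rw [hν]
      simp only
      rw [div_pow, div_pow, ← add_div, hρ2, div_self hpos.ne']
    have hνn : ‖ν‖ = 1 := by
      rw [Complex.norm_def, Complex.normSq_apply, ← pow_two, ← pow_two, hν1, Real.sqrt_one]
    have hline : ∀ s ∈ Set.Ioo (0 : ℝ) 1, (conj ν * toC (γ s)).re = c / ρ := by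
      intro s hs
      have h1 := hl s (Set.Ioo_subset_Icc_self hs)
      have e1 : (conj ν * toC (γ s)).re = a / ρ * (γ s).1 + b / ρ * (γ s).2 := by
        simp only [Complex.mul_re, Complex.conj_re, Complex.conj_im, toC, hν]
        ring
      rw [e1, ← h1]
      ring
    refine ⟨Mirror.flat ν (c / ρ), hνn, ?_, Or.inl ⟨ν, c / ρ, hνn, hline⟩⟩
    intro s hs V
    refine ⟨hline s hs, ?_⟩
    apply refl_aux (deriv γ s) V (hreg s (Set.Ioo_subset_Icc_self hs)) ν hν1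
    have h1 : HasDerivAt (fun t => a * (γ t).1 + b * (γ t).2)
        (a * (deriv γ s).1 + b * (deriv γ s).2) s :=
      ((hder s).1.const_mul a).add ((hder s).2.const_mul b)
    have h2 : HasDerivAt (fun t => a * (γ t).1 + b * (γ t).2) 0 s := by
      apply (hasDerivAt_const s c).congr_of_eventuallyEq
      filter_upwards [Ioo_mem_nhds hs.1 hs.2] with t ht
      exact hl t (Set.Ioo_subset_Icc_self ht)
    have h3 := h1.unique h2
    rw [hν]
    simp only
    have e1 : a / ρ * (deriv γ s).1 + b / ρ * (deriv γ s).2 =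
        (a * (deriv γ s).1 + b * (deriv γ s).2) / ρ := by ring
    rw [e1, h3, zero_div]
  · -- circular
    set c : ℂ := ⟨x, y⟩ with hc
    have hcirc : ∀ s ∈ Set.Ioo (0 : ℝ) 1, ‖toC (γ s) - c‖ = r := by
      intro s hs
      have h1 := hl s (Set.Ioo_subset_Icc_self hs)
      rw [Complex.norm_def, Complex.normSq_apply, ← pow_two, ← pow_two]
      have e1 : (toC (γ s) - c).re = (γ s).1 - x := rfl
      have e2 : (toC (γ s) - c).im = (γ s).2 - y := rfl
      rw [e1, e2, h1, Real.sqrt_sq hr.le]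
    refine ⟨Mirror.circ c r, hr, ?_, Or.inr ⟨c, r, hr, hcirc⟩⟩
    intro s hs V
    refine ⟨hcirc s hs, ?_⟩
    have hre : ((toC (γ s) - c) / (r : ℂ)).re = ((γ s).1 - x) / r := by
      rw [Complex.div_ofReal_re]
      rfl
    have him : ((toC (γ s) - c) / (r : ℂ)).im = ((γ s).2 - y) / r := by
      rw [Complex.div_ofReal_im]
      rfl
    apply refl_aux (deriv γ s) V (hreg s (Set.Ioo_subset_Icc_self hs)) ((toC (γ s) - c) / (r : ℂ))
    · rw [hre, him, div_pow, div_pow, ← add_div, hl s (Set.Ioo_subset_Icc_self hs),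
        div_self (pow_pos hr 2).ne']
    have h1 : HasDerivAt (fun t => ((γ t).1 - x) ^ 2 + ((γ t).2 - y) ^ 2)
        (2 * ((γ s).1 - x) * (deriv γ s).1 + 2 * ((γ s).2 - y) * (deriv γ s).2) s := by
      have h1 := (((hder s).1.sub_const x).pow 2).add (((hder s).2.sub_const y).pow 2)
      refine h1.congr_deriv ?_
      push_cast
      ring
    have h2 : HasDerivAt (fun t => ((γ t).1 - x) ^ 2 + ((γ t).2 - y) ^ 2) 0 s := by
      apply (hasDerivAt_const s (r ^ 2)).congr_of_eventuallyEq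
      filter_upwards [Ioo_mem_nhds hs.1 hs.2] with t ht
      exact hl t (Set.Ioo_subset_Icc_self ht)
    have h3 := h1.unique h2
    rw [hre, him]
    have e1 : ((γ s).1 - x) / r * (deriv γ s).1 + ((γ s).2 - y) / r * (deriv γ s).2 =
        (2 * ((γ s).1 - x) * (deriv γ s).1 + 2 * ((γ s).2 - y) * (deriv γ s).2) / (2 * r) := by
      field_simp
    rw [e1, h3, zero_div]

end Pool.Agent.H6.Ivrii
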