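import Pool.Agent.H6.Ivrii.Core
import Pool.Agent.H6.Ivrii.Arc

set_option autoImplicit false

namespace Pool.Agent.H6.Ivrii

open MeasureTheory ComplexConjugate

theorem toC_add_smul (P V : ℝ × ℝ) (t : ℝ) : toC (P + t • V) = toC P + t * toC V := by
  apply Complex.ext
  · simp [toC]
  · simp [toC]

theorem toC_cos_sin (θ : ℝ) : toC (Real.cos θ, Real.sin θ) = Complex.exp (θ * Complex.I) := by
  apply Complex.ext
  · simp [toC, Complex.exp_ofReal_mul_I_re]
  · simp [toC, Complex.exp_ofReal_mul_I_im]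

theorem main (m : ℕ) (Y : Set (ℝ × ℝ)) (γ : Fin m → ℝ → ℝ × ℝ)
    (hγ : ∀ i, ContDiff ℝ ((⊤ : ℕ∞) : WithTop ℕ∞) (γ i))
    (hreg : ∀ i, ∀ s ∈ Set.Icc (0 : ℝ) 1, deriv (γ i) s ≠ 0)
    (hinj : ∀ i, Set.InjOn (γ i) (Set.Ioo (0 : ℝ) 1))
    (hdisj : ∀ i j, i ≠ j →
      Disjoint (γ i '' Set.Ioo (0 : ℝ) 1) (γ j '' Set.Ioo (0 : ℝ) 1))
    (J : Set (Fin m)) (hJ : ∀ j ∈ J, StraightOrCircular (γ j)) (i : Fin m) :
    volume {q : ℝ × ℝ | q.1 ∈ Set.Ioo (0 : ℝ) 1 ∧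
        ∃ n : ℕ, 0 < n ∧ ∃ P V : ℕ → ℝ × ℝ,
          P 0 = γ i q.1 ∧ V 0 = (Real.cos q.2, Real.sin q.2) ∧
          P n = P 0 ∧ V n = V 0 ∧
          ∀ k < n,
            (∃ t : ℝ, 0 < t ∧ P (k + 1) = P k + t • V k ∧
              ∀ τ ∈ Set.Ioo (0 : ℝ) t, P k + τ • V k ∈ interior Y) ∧
            (∃ j ∈ J, ∃ s ∈ Set.Ioo (0 : ℝ) 1, P (k + 1) = γ j s ∧
              (V k).1 * (-(deriv (γ j) s).2) + (V k).2 * (deriv (γ j) s).1 ≠ 0 ∧
              V (k + 1) = V k -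
                (2 * ((V k).1 * (-(deriv (γ j) s).2) + (V k).2 * (deriv (γ j) s).1) /
                  ((deriv (γ j) s).1 ^ 2 + (deriv (γ j) s).2 ^ 2)) •
                  (-(deriv (γ j) s).2, (deriv (γ j) s).1)) ∧
            (∃ ε : ℝ, 0 < ε ∧
              ∀ τ ∈ Set.Ioo (0 : ℝ) ε, P (k + 1) + τ • V (k + 1) ∈ interior Y)} = 0 := by
  classical
  have hdiff : ∀ j, Differentiable ℝ (γ j) := fun j => (hγ j).differentiable (by simp)
  by_cases hi : i ∈ J
  swap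
  · -- no closed orbit starts on the arc `i`
    convert measure_empty (μ := (volume : Measure (ℝ × ℝ)))
    rw [Set.eq_empty_iff_forall_notMem]
    rintro q ⟨hq, n, hn, P, V, hP0, -, hPn, -, hall⟩
    obtain ⟨-, ⟨j, hj, s, hs, hPs, -⟩, -⟩ := hall (n - 1) (by omega)
    rw [Nat.sub_add_cancel hn] at hPs
    have hij : i ≠ j := fun h => hi (h ▸ hj)
    exact Set.disjoint_left.mp (hdisj i j hij) ⟨q.1, hq, rfl⟩ ⟨s, hs, by rw [← hPs, hPn, hP0]⟩
  · have hM : ∀ j, ∃ M : Mirror, M.ok ∧ (j ∈ J → (∀ s ∈ Set.Ioo (0 : ℝ) 1, ∀ V : ℝ × ℝ,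
        M.refl (toC (γ j s)) (toC V)
        (toC (V - (2 * (V.1 * (-(deriv (γ j) s).2) + V.2 * (deriv (γ j) s).1) /
          ((deriv (γ j) s).1 ^ 2 + (deriv (γ j) s).2 ^ 2)) •
            (-(deriv (γ j) s).2, (deriv (γ j) s).1))))) := by
      intro j
      by_cases hj : j ∈ J
      · obtain ⟨M, h1, h2, -⟩ := arc_mirror (γ j) (hdiff j) (hreg j) (hJ j hj)
        exact ⟨M, h1, fun _ => h2⟩
      · exact ⟨Mirror.flat 1 0, by simp [Mirror.ok], fun h => absurd h hj⟩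
    choose M hMok hMrefl using hM
    obtain ⟨-, -, -, hshape⟩ := arc_mirror (γ i) (hdiff i) (hreg i) (hJ i hi)
    have hcont : Continuous (fun s => toC (γ i s)) := by
      have h1 : Continuous (γ i) := (hγ i).continuous
      have h2 : (fun s => toC (γ i s)) =
          fun s => (((γ i s).1 : ℂ) + ((γ i s).2 : ℂ) * Complex.I) := by
        funext s
        apply Complex.ext <;> simp [toC]
      rw [h2]
      fun_prop
    have hinjC : Set.InjOn (fun s => toC (γ i s)) (Set.Ioo (0 : ℝ) 1) := by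
      intro a ha b hb hab
      apply hinj i ha hb
      have h1 := congrArg Complex.re hab
      have h2 := congrArg Complex.im hab
      exact Prod.ext h1 h2
    have hcore : ∀ w : List (Fin m), volume {x : ℝ × ℝ | x.1 ∈ Set.Ioo (0 : ℝ) 1 ∧
        ∃ T : ℝ, 0 < T ∧ PO (w.map M) (toC (γ i x.1)) (Complex.exp (x.2 * Complex.I)) T
          (toC (γ i x.1)) (Complex.exp (x.2 * Complex.I))} = 0 := fun w =>
      core (fun s => toC (γ i s)) hcont hinjC hshape (w.map M) (by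
        intro mm hmm
        obtain ⟨j, -, rfl⟩ := List.mem_map.mp hmm
        exact hMok j)
    refine measure_mono_null ?_ (measure_iUnion_null hcore)
    rintro q ⟨hq, n, hn, P, V, hP0, hV0, hPn, hVn, hall⟩
    have hind : ∀ k ≤ n, ∃ (w : List (Fin m)) (T : ℝ), (0 < k → 0 < T) ∧ 0 ≤ T ∧
        PO (w.map M) (toC (P 0)) (toC (V 0)) T (toC (P k)) (toC (V k)) := by
      intro k
      induction k with
      | zero => intro _; exact ⟨[], 0, fun h => absurd h (lt_irrefl _), le_rfl, rfl, rfl, rfl⟩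
      | succ k ih =>
        intro hk
        obtain ⟨w, T, -, hT0, hPO⟩ := ih (by omega)
        obtain ⟨⟨t, ht, hPt, -⟩, ⟨j, hj, s, hs, hPs, -, hVs⟩, -⟩ := hall k (by omega)
        refine ⟨j :: w, T + t, fun _ => by linarith, by linarith, T, t, toC (P k), toC (V k),
          hPO, ?_, rfl, ?_⟩
        · rw [hPt, toC_add_smul]
        · rw [hPs, hVs]
          exact hMrefl j hj s hs (V k)
    obtain ⟨w, T, hT, -, hPO⟩ := hind n le_rfl
    rw [hPn, hVn, hP0, hV0, toC_cos_sin] at hPO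
    exact Set.mem_iUnion.mpr ⟨w, hq, T, hT hn, hPO⟩

end Pool.Agent.H6.Ivrii
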