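import Pool.Agent.H6.Ivrii.Defs

/-!
JOB IV-8. A non-zero polynomial in `(v, q)` vanishes only on a null set of `(s, θ)`.

Write `F ≠ 0` as a polynomial in the second variable with coefficients in the first one: some coefficient `F_j(v)` is not the zero polynomial, so for all
`θ` outside a countable set `F_j (exp (i θ)) ≠ 0`, and then `q ↦ F (exp (i θ), q)` has finitely many roots. For such a `θ` (and, in the straight
case, `exp (i θ)` not parallel to the segment: all `θ` outside a countable set) the set of `s ∈ (0,1)` with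
`γ s * conj V - conj (γ s) * V = ρ` (`V = exp (i θ)`) is finite for every `ρ`: it says that `γ s` is on a fixed line with direction `V`,
which meets the circle in at most two points and the other line in one point, and `γ` is injective on `(0,1)`.
The set is measurable (`γ` continuous), so Fubini (`MeasureTheory.Measure.measure_prod_null` or its swapped version) gives measure 0.
-/

set_option autoImplicit false

namespace Pool.Agent.H6.Ivrii

open ComplexConjugate MeasureTheory

/-- a nonzero polynomial in one variable has finitely many zeros -/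
theorem nz_finite_one (c : MvPolynomial (Fin 1) ℂ) (hc : c ≠ 0) :
    {v : ℂ | MvPolynomial.eval ![v] c = 0}.Finite := by
  have h1 : MvPolynomial.finSuccEquiv ℂ 0 c ≠ 0 := by
    simpa using hc
  have hinj : Function.Injective (MvPolynomial.eval (Fin.elim0 : Fin 0 → ℂ)) := by
    intro a b hab
    have h2 : ∀ x : MvPolynomial (Fin 0) ℂ,
        MvPolynomial.C (MvPolynomial.eval (Fin.elim0 : Fin 0 → ℂ) x) = x := by
      intro x
      obtain ⟨r, rfl⟩ := MvPolynomial.C_surjective (Fin 0) x
      simp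
    rw [← h2 a, ← h2 b, hab]
  have h3 : (MvPolynomial.finSuccEquiv ℂ 0 c).map
      (MvPolynomial.eval (Fin.elim0 : Fin 0 → ℂ)) ≠ 0 :=
    (Polynomial.map_ne_zero_iff hinj).2 h1
  refine ((Polynomial.rootSet_finite ((MvPolynomial.finSuccEquiv ℂ 0 c).map
      (MvPolynomial.eval (Fin.elim0 : Fin 0 → ℂ))) ℂ)).subset ?_
  intro v hv
  rw [Polynomial.mem_rootSet]
  refine ⟨h3, ?_⟩
  have h4 := MvPolynomial.eval_eq_eval_mv_eval' (Fin.elim0 : Fin 0 → ℂ) v c
  have h5 : (Fin.cons v (Fin.elim0 : Fin 0 → ℂ) : Fin 1 → ℂ) = ![v] := by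
    funext i
    fin_cases i
    rfl
  rw [h5, hv] at h4
  simpa using h4.symm

/-- partial evaluation -/
theorem nz_partial (F : MvPolynomial (Fin 2) ℂ) (hF : F ≠ 0) :
    ∃ N : Set ℂ, N.Finite ∧ ∀ v : ℂ, v ∉ N →
      {q : ℂ | MvPolynomial.eval ![v, q] F = 0}.Finite := by
  set F' := MvPolynomial.rename (Equiv.swap (0 : Fin 2) 1) F with hF'
  have hF'0 : F' ≠ 0 := by
    intro h
    apply hF
    apply MvPolynomial.rename_injective _ (Equiv.swap (0 : Fin 2) 1).injective
    rw [← hF', h, map_zero]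
  set G := MvPolynomial.finSuccEquiv ℂ 1 F' with hG
  have hG0 : G ≠ 0 := by
    rw [hG]
    simpa using hF'0
  obtain ⟨i, hi⟩ : ∃ i, G.coeff i ≠ 0 := by
    by_contra h
    push Not at h
    exact hG0 (Polynomial.ext fun i => by simpa using h i)
  refine ⟨{v : ℂ | MvPolynomial.eval ![v] (G.coeff i) = 0}, nz_finite_one _ hi, ?_⟩
  intro v hv
  have h1 : G.map (MvPolynomial.eval ![v]) ≠ 0 := by
    intro h
    apply hv
    have := congrArg (fun P => Polynomial.coeff P i) h
    simpa [Polynomial.coeff_map] using this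
  refine (Polynomial.rootSet_finite (G.map (MvPolynomial.eval ![v])) ℂ).subset ?_
  intro q hq
  rw [Polynomial.mem_rootSet]
  refine ⟨h1, ?_⟩
  have h4 := MvPolynomial.eval_eq_eval_mv_eval' (![v] : Fin 1 → ℂ) q F'
  have h5 : MvPolynomial.eval (Fin.cons q (![v] : Fin 1 → ℂ) : Fin 2 → ℂ) F' =
      MvPolynomial.eval ![v, q] F := by
    rw [hF', MvPolynomial.eval_rename]
    congr 2
    funext j
    fin_cases j <;> simp [Equiv.swap_apply_left, Equiv.swap_apply_right]
  rw [h5] at h4
  have hq' : MvPolynomial.eval ![v, q] F = 0 := hq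
  rw [hq'] at h4
  simpa using h4.symm

/-- the angles with values of the exponential in a finite set are countable -/
theorem nz_countable {N : Set ℂ} (hN : N.Finite) :
    {θ : ℝ | Complex.exp (θ * Complex.I) ∈ N}.Countable := by
  have h1 : {θ : ℝ | Complex.exp (θ * Complex.I) ∈ N} =
      ⋃ v ∈ N, {θ : ℝ | Complex.exp (θ * Complex.I) = v} := by
    ext θ
    simp
  rw [h1]
  refine hN.countable.biUnion fun v _ => ?_
  by_cases h : ∃ θ₀ : ℝ, Complex.exp (θ₀ * Complex.I) = v
  · obtain ⟨θ₀, hθ₀⟩ := h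
    refine (Set.countable_range (fun n : ℤ => θ₀ + n * (2 * Real.pi))).mono ?_
    intro θ hθ
    rw [Set.mem_setOf_eq, ← hθ₀, Complex.exp_eq_exp_iff_exists_int] at hθ
    obtain ⟨n, hn⟩ := hθ
    refine ⟨n, ?_⟩
    have h2 : ((θ : ℂ)) * Complex.I = ((θ₀ + n * (2 * Real.pi) : ℝ) : ℂ) * Complex.I := by
      rw [hn]
      push_cast
      ring
    have h3 := mul_right_cancel₀ Complex.I_ne_zero h2
    exact_mod_cast h3.symm
  · push Not at h
    convert Set.countable_empty
    ext θ
    simp only [Set.mem_setOf_eq, Set.mem_empty_iff_false, iff_false]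
    exact h θ

theorem nz_im (z V : ℂ) : z * conj V - conj z * V = (2 * (conj V * z).im : ℝ) * Complex.I := by
  apply Complex.ext <;> simp <;> ring

/-- the line case -/
theorem nz_line {ν V : ℂ} (hV : ‖V‖ = 1) (hνV : (conj ν * V).re ≠ 0) {z z' : ℂ}
    (h1 : (conj ν * z).re = (conj ν * z').re)
    (h2 : z * conj V - conj z * V = z' * conj V - conj z' * V) : z = z' := by
  have hVV : V * conj V = 1 := by
    rw [Complex.mul_conj, Complex.normSq_eq_norm_sq, hV]
    norm_num
  rw [nz_im, nz_im] at h2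
  have h3 := mul_right_cancel₀ Complex.I_ne_zero h2
  have h4 : (conj V * z).im = (conj V * z').im := by
    have : (2 * (conj V * z).im : ℝ) = 2 * (conj V * z').im := by exact_mod_cast h3
    linarith
  set w := z - z' with hw
  have h5 : (conj V * w).im = 0 := by
    rw [hw, mul_sub, Complex.sub_im, h4, sub_self]
  have h6 : w = ((conj V * w).re : ℝ) * V := by
    have h7 : conj V * w = ((conj V * w).re : ℝ) := by
      apply Complex.ext
      · simp
      · rw [h5]; simp
    calc w = (V * conj V) * w := by rw [hVV, one_mul]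
      _ = (conj V * w) * V := by ring
      _ = _ := by rw [h7]; simp
  have h8 : (conj ν * w).re = 0 := by
    rw [hw, mul_sub, Complex.sub_re, h1, sub_self]
  have h9 : (conj ν * w).re = (conj V * w).re * (conj ν * V).re := by
    conv_lhs => rw [h6]
    rw [mul_left_comm, Complex.re_ofReal_mul]
  rw [h9] at h8
  have h10 : (conj V * w).re = 0 := by
    rcases mul_eq_zero.1 h8 with h | h
    · exact h
    · exact absurd h hνV
  rw [h10] at h6
  have : w = 0 := by simpa using h6
  exact sub_eq_zero.1 this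

/-- the circle case -/
theorem nz_circle {V c : ℂ} (hV : ‖V‖ = 1) (r : ℝ) (ρ : ℂ) :
    {z : ℂ | ‖z - c‖ = r ∧ z * conj V - conj z * V = ρ}.Finite := by
  have hVV : V * conj V = 1 := by
    rw [Complex.mul_conj, Complex.normSq_eq_norm_sq, hV]
    norm_num
  by_cases hne : {z : ℂ | ‖z - c‖ = r ∧ z * conj V - conj z * V = ρ}.Nonempty
  swap
  · rw [Set.not_nonempty_iff_eq_empty.1 hne]
    exact Set.finite_empty
  obtain ⟨z₀, hz₀⟩ := hne
  set k : ℝ := (conj V * (z₀ - c)).im with hk
  refine (Set.toFinite {c + V * ((Real.sqrt (r ^ 2 - k ^ 2) : ℝ) + k * Complex.I),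
    c + V * ((-Real.sqrt (r ^ 2 - k ^ 2) : ℝ) + k * Complex.I)}).subset ?_
  rintro z ⟨hz1, hz2⟩
  have h1 : (conj V * z).im = (conj V * z₀).im := by
    have h2 : z * conj V - conj z * V = z₀ * conj V - conj z₀ * V := by rw [hz2, hz₀.2]
    rw [nz_im, nz_im] at h2
    have h3 := mul_right_cancel₀ Complex.I_ne_zero h2
    have : (2 * (conj V * z).im : ℝ) = 2 * (conj V * z₀).im := by exact_mod_cast h3
    linarith
  have h4 : (conj V * (z - c)).im = k := by
    rw [hk, mul_sub, mul_sub, Complex.sub_im, Complex.sub_im, h1]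
  have h5 : ‖conj V * (z - c)‖ = r := by
    rw [norm_mul, RCLike.norm_conj, hV, one_mul, hz1]
  set u := conj V * (z - c) with hu
  have h6 : u.re ^ 2 + k ^ 2 = r ^ 2 := by
    rw [← h4, ← h5, ← Complex.normSq_eq_norm_sq, Complex.normSq_apply]
    ring
  have h7 : u.re ^ 2 = r ^ 2 - k ^ 2 := by linarith
  have h8 : z = c + V * u := by
    rw [hu, ← mul_assoc, hVV, one_mul]
    ring
  have h9 : u = (u.re : ℝ) + k * Complex.I := by
    rw [← h4]
    exact (Complex.re_add_im u).symm
  have h10 : u.re = Real.sqrt (r ^ 2 - k ^ 2) ∨ u.re = -Real.sqrt (r ^ 2 - k ^ 2) := by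
    rw [← h7, Real.sqrt_sq_eq_abs]
    rcases abs_cases u.re with ⟨h, _⟩ | ⟨h, _⟩
    · left; rw [h]
    · right; rw [h, neg_neg]
  rw [Set.mem_insert_iff, Set.mem_singleton_iff]
  rcases h10 with h | h
  · left
    rw [← h, ← h9]
    exact h8
  · right
    rw [← h, ← h9]
    exact h8

theorem null_zero (γ : ℝ → ℂ) (hγ : Continuous γ) (hinj : Set.InjOn γ (Set.Ioo (0 : ℝ) 1))
    (hshape : (∃ (ν : ℂ) (h : ℝ), ‖ν‖ = 1 ∧ ∀ s ∈ Set.Ioo (0 : ℝ) 1, (conj ν * γ s).re = h) ∨
      (∃ (c : ℂ) (r : ℝ), 0 < r ∧ ∀ s ∈ Set.Ioo (0 : ℝ) 1, ‖γ s - c‖ = r))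
    (F : MvPolynomial (Fin 2) ℂ) (hF : F ≠ 0) :
    volume {x : ℝ × ℝ | x.1 ∈ Set.Ioo (0 : ℝ) 1 ∧
      MvPolynomial.eval ![Complex.exp (x.2 * Complex.I),
        γ x.1 * conj (Complex.exp (x.2 * Complex.I)) -
          conj (γ x.1) * Complex.exp (x.2 * Complex.I)] F = 0} = 0 := by
  set S : Set (ℝ × ℝ) := {x : ℝ × ℝ | x.1 ∈ Set.Ioo (0 : ℝ) 1 ∧
      MvPolynomial.eval ![Complex.exp (x.2 * Complex.I),
        γ x.1 * conj (Complex.exp (x.2 * Complex.I)) -
          conj (γ x.1) * Complex.exp (x.2 * Complex.I)] F = 0} with hS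
  have hVn : ∀ θ : ℝ, ‖Complex.exp (θ * Complex.I)‖ = 1 := fun θ => Complex.norm_exp_ofReal_mul_I θ
  -- measurability
  have hmeas : MeasurableSet S := by
    have h1 : MeasurableSet {x : ℝ × ℝ | x.1 ∈ Set.Ioo (0 : ℝ) 1} :=
      measurableSet_Ioo.preimage measurable_fst
    have h2 : Continuous (fun x : ℝ × ℝ => MvPolynomial.eval ![Complex.exp (x.2 * Complex.I),
        γ x.1 * conj (Complex.exp (x.2 * Complex.I)) -
          conj (γ x.1) * Complex.exp (x.2 * Complex.I)] F) := by
      refine (MvPolynomial.continuous_eval F).comp ?_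
      refine continuous_pi fun i => ?_
      have c1 : Continuous (fun x : ℝ × ℝ => Complex.exp (x.2 * Complex.I)) := by fun_prop
      have c2 : Continuous (fun x : ℝ × ℝ => γ x.1) := hγ.comp continuous_fst
      fin_cases i
      · exact c1
      · exact (c2.mul (Complex.continuous_conj.comp c1)).sub
          ((Complex.continuous_conj.comp c2).mul c1)
    exact h1.inter (isClosed_singleton.preimage h2).measurableSet
  -- the exceptional angles
  obtain ⟨N, hN, hNf⟩ := nz_partial F hF
  obtain ⟨N', hN', hN'f⟩ : ∃ N' : Set ℂ, N'.Finite ∧ ∀ θ : ℝ, Complex.exp (θ * Complex.I) ∉ N' →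
      ∀ ρ : ℂ, {s : ℝ | s ∈ Set.Ioo (0 : ℝ) 1 ∧ γ s * conj (Complex.exp (θ * Complex.I)) -
          conj (γ s) * Complex.exp (θ * Complex.I) = ρ}.Finite := by
    rcases hshape with ⟨ν, h, hν, hline⟩ | ⟨c, r, hr, hcirc⟩
    · refine ⟨{Complex.I * ν, -(Complex.I * ν)}, Set.toFinite _, fun θ hθ ρ => ?_⟩
      set V := Complex.exp (θ * Complex.I) with hV
      have hV1 : ‖V‖ = 1 := hVn θ
      have hre : (conj ν * V).re ≠ 0 := by
        intro h0
        apply hθ
        have hνν : ν * conj ν = 1 := by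
          rw [Complex.mul_conj, Complex.normSq_eq_norm_sq, hν]
          norm_num
        have h1 : ‖conj ν * V‖ = 1 := by rw [norm_mul, RCLike.norm_conj, hν, hV1, one_mul]
        have h2 : (conj ν * V).im ^ 2 = 1 := by
          have h3 : ‖conj ν * V‖ ^ 2 = 1 := by rw [h1, one_pow]
          rw [← Complex.normSq_eq_norm_sq, Complex.normSq_apply, h0] at h3
          linarith
        have h4 : conj ν * V = ((conj ν * V).im : ℝ) * Complex.I := by
          apply Complex.ext
          · rw [h0]; simp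
          · simp
        have h5 : V = ν * (conj ν * V) := by rw [← mul_assoc, hνν, one_mul]
        rw [Set.mem_insert_iff, Set.mem_singleton_iff]
        have h2' : (conj ν * V).im = 1 ∨ (conj ν * V).im = -1 := by
          have : ((conj ν * V).im - 1) * ((conj ν * V).im + 1) = 0 := by linarith [h2]
          rcases mul_eq_zero.1 this with h | h
          · left; linarith
          · right; linarith
        rcases h2' with h6 | h6
        · left
          rw [h5, h4, h6]
          push_cast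
          ring
        · right
          rw [h5, h4, h6]
          push_cast
          ring
      refine Set.Subsingleton.finite ?_
      rintro s ⟨hs, hs2⟩ s' ⟨hs', hs2'⟩
      refine hinj hs hs' (nz_line hV1 hre ?_ ?_)
      · rw [hline s hs, hline s' hs']
      · rw [hs2, hs2']
    · refine ⟨∅, Set.finite_empty, fun θ _ ρ => ?_⟩
      have h1 := nz_circle (c := c) (hVn θ) r ρ
      have h2 : {s : ℝ | s ∈ Set.Ioo (0 : ℝ) 1 ∧ γ s * conj (Complex.exp (θ * Complex.I)) -
          conj (γ s) * Complex.exp (θ * Complex.I) = ρ} ⊆ Set.Ioo (0 : ℝ) 1 ∩ γ ⁻¹' {z : ℂ | ‖z - c‖ = r ∧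
            z * conj (Complex.exp (θ * Complex.I)) - conj z * Complex.exp (θ * Complex.I) = ρ} := by
        rintro s ⟨hs, hs2⟩
        exact ⟨hs, hcirc s hs, hs2⟩
      refine Set.Finite.subset ?_ h2
      refine Set.Finite.of_finite_image (f := γ) (h1.subset ?_) (hinj.mono Set.inter_subset_left)
      rintro _ ⟨s, hs, rfl⟩
      exact hs.2
  -- the sections
  have hsec : ∀ θ : ℝ, Complex.exp (θ * Complex.I) ∉ N ∪ N' → {s : ℝ | (s, θ) ∈ S}.Finite := by
    intro θ hθ
    rw [Set.mem_union, not_or] at hθ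
    have h1 := hNf _ hθ.1
    have h2 : {s : ℝ | (s, θ) ∈ S} ⊆ ⋃ ρ ∈ {q : ℂ | MvPolynomial.eval
        ![Complex.exp (θ * Complex.I), q] F = 0}, {s : ℝ | s ∈ Set.Ioo (0 : ℝ) 1 ∧
          γ s * conj (Complex.exp (θ * Complex.I)) -
          conj (γ s) * Complex.exp (θ * Complex.I) = ρ} := by
      rintro s ⟨hs, hs2⟩
      rw [Set.mem_iUnion₂]
      exact ⟨_, hs2, hs, rfl⟩
    exact (h1.biUnion fun ρ _ => hN'f θ hθ.2 ρ).subset h2
  -- Fubini
  have hswap : volume (Prod.swap ⁻¹' S : Set (ℝ × ℝ)) = volume S :=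
    (Measure.measurePreserving_swap (μ := (volume : Measure ℝ))
      (ν := (volume : Measure ℝ))).measure_preimage hmeas.nullMeasurableSet
  rw [← hswap]
  change (volume.prod volume : Measure (ℝ × ℝ)) (Prod.swap ⁻¹' S) = 0
  rw [Measure.measure_prod_null (hmeas.preimage measurable_swap)]
  have hae : ∀ᵐ θ : ℝ, θ ∉ {θ : ℝ | Complex.exp (θ * Complex.I) ∈ N ∪ N'} :=
    (nz_countable (hN.union hN')).ae_notMem volume
  filter_upwards [hae] with θ hθ
  exact (hsec θ hθ).measure_zero volume

end Pool.Agent.H6.Ivrii
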