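import Pool.Agent.H6.Ivrii.Defs

/-!
JOB IV-5. Reduction of words (stack algorithm), for lines with marked points.
`reduce_step`: add one more letter `(c, r, 1)` with root `w` to a reduced word `L`.
Induction on `L`:
* `L = []`, or `L = l :: L'` with `l.c ≠ c`: `(c, r, 1) :: L`.
* `l.c = c`, `l.r = r`, root `w'` of `l`: `ang c` is the same before and after `l`, so `r (w - w⁻¹) = r (w' - w'⁻¹)`, hence `w = w'` or `w = -w'⁻¹`,
  and the new letter is `(c, r, 1)` or `(c, r, -1)` with root `w'` (also for `sig`: `-w'⁻¹ + (-w'⁻¹)⁻¹ = -(w' + w'⁻¹)`); merge: exponent `l.n ± 1`;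
  if it is `0` the word is `L'` (the effect is the identity: `s = s'`, use `ext` on the three entries), otherwise `(c, r, l.n ± 1) :: L'`.
* `l.c = c`, `l.r ≠ r`: both letters leave `ang c` unchanged, so they can be exchanged: apply the induction hypothesis to `L'` and the
  new letter (with the state before `l`), giving a word `L''` and then `l :: L''`. For `Red (l :: L'')` one needs `Fresh l.c l.r L''`:
  strengthen the induction: for every `(c₀, r₀)` with `Fresh c₀ r₀ L` and not `(c₀ = c ∧ r₀ = r)`, also `Fresh c₀ r₀ L''`, UNLESS the top run changed its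
  centre; formulate: for every radius `ρ ≠ r`, `Fresh c ρ L → Fresh c ρ L''` (this is what is used; note that when the word `L'` becomes
  shorter its new top letter has another centre or belongs to the same run).
-/

set_option autoImplicit false

namespace Pool.Agent.H6.Ivrii

open ComplexConjugate

variable {K : Type} [Field K] [Algebra ℂ K]

theorem Reduce_root {r : ℝ} (hr : 0 < r) {w w1 : K} (hw : w ≠ 0) (hw1 : w1 ≠ 0)
    (h : algebraMap ℂ K (r : ℂ) * (w - w⁻¹) = algebraMap ℂ K (r : ℂ) * (w1 - w1⁻¹)) :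
    w = w1 ∨ w = -w1⁻¹ := by
  have hr' : algebraMap ℂ K (r : ℂ) ≠ 0 := by
    rw [Ne, map_eq_zero_iff _ (algebraMap ℂ K).injective]
    exact_mod_cast hr.ne'
  have h1 := mul_left_cancel₀ hr' h
  have h2 : (w - w1) * (w * w1 + 1) = 0 := by
    have e1 : w * w⁻¹ = 1 := mul_inv_cancel₀ hw
    have e2 : w1 * w1⁻¹ = 1 := mul_inv_cancel₀ hw1
    linear_combination (w * w1) * h1 + w1 * e1 - w * e2
  rcases mul_eq_zero.1 h2 with h3 | h3
  · exact Or.inl (sub_eq_zero.1 h3)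
  · right
    have h4 : w * w1 = -1 := by linear_combination h3
    rw [eq_neg_iff_add_eq_zero]
    have e2 : w1 * w1⁻¹ = 1 := mul_inv_cancel₀ hw1
    linear_combination w1⁻¹ * h4 - w * e2

theorem Reduce_merge {l : Letter} {w w1 : K} {s1 s s' : K × K × K} (h1 : Step3 l w1 s1 s)
    (h2 : Step3 ⟨l.c, l.r, 1⟩ w s s') (hr : 0 < l.r) :
    ∃ e : ℤ, Step3 ⟨l.c, l.r, l.n + e⟩ w1 s1 s' := by
  obtain ⟨⟨hw1, hr1, hv1, ha1⟩, hs1⟩ := h1
  obtain ⟨⟨hw, hr2, hv2, ha2⟩, hs2⟩ := h2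
  dsimp only at hr1 hv1 ha1 hs1 hr2 hv2 ha2 hs2
  have hne : -w1 ^ 2 ≠ 0 := neg_ne_zero.2 (pow_ne_zero 2 hw1)
  rcases Reduce_root hr hw hw1 (hr2.trans (ha1.trans hr1.symm)) with h | h
  · subst h
    refine ⟨1, ⟨hw, hr1, ?_, ha2.trans ha1⟩, ?_⟩
    · dsimp only
      rw [hv2, hv1, zpow_add₀ hne]
      ring
    · dsimp only
      rw [hs2, hs1]
      push_cast
      ring
  · subst h
    refine ⟨-1, ⟨hw1, hr1, ?_, ha2.trans ha1⟩, ?_⟩
    · dsimp only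
      rw [hv2, hv1, zpow_add₀ hne, zpow_one, zpow_neg_one]
      have e : -(-w1⁻¹) ^ 2 = (-w1 ^ 2)⁻¹ := by
        rw [neg_sq, inv_pow, inv_neg]
      rw [e]
      ring
    · dsimp only
      rw [hs2, hs1, inv_neg, inv_inv]
      push_cast
      ring

theorem Reduce_zero {c : ℂ} {r : ℝ} {w1 : K} {s1 s' : K × K × K} (h : Step3 ⟨c, r, 0⟩ w1 s1 s') :
    s' = s1 := by
  obtain ⟨⟨hw1, hr1, hv1, ha1⟩, hs1⟩ := h
  dsimp only at hr1 hv1 ha1 hs1
  rw [zpow_zero, one_mul] at hv1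
  unfold ang at ha1
  dsimp only at ha1
  unfold sig at hs1
  rw [hv1] at ha1 hs1
  have h2 : s'.2.1 = s1.2.1 := by linear_combination ha1
  have h3 : s'.2.2 = s1.2.2 := by
    rw [Int.cast_zero] at hs1
    linear_combination hs1
  exact Prod.ext hv1 (Prod.ext h2 h3)

theorem Reduce_swap {l : Letter} {r : ℝ} {w w1 : K} {s1 s s' : K × K × K} (h1 : Step3 l w1 s1 s)
    (h2 : Step3 ⟨l.c, r, 1⟩ w s s') :
    ∃ s2 : K × K × K, Step3 ⟨l.c, r, 1⟩ w s1 s2 ∧ Step3 l w1 s2 s' := by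
  obtain ⟨⟨hw1, hr1, hv1, ha1⟩, hs1⟩ := h1
  obtain ⟨⟨hw, hr2, hv2, ha2⟩, hs2⟩ := h2
  dsimp only at hr1 hv1 ha1 hs1 hr2 hv2 ha2 hs2
  let v2 : K := (-w ^ 2) ^ (1 : ℤ) * s1.1
  let q2 : K := ang l.c (s1.1, s1.2.1) + algebraMap ℂ K l.c * v2⁻¹ - algebraMap ℂ K (conj l.c) * v2
  let σ2 : K := sig l.c s1 - ((1 : ℤ) : K) * algebraMap ℂ K (r : ℂ) * (w + w⁻¹) +
    (algebraMap ℂ K l.c * v2⁻¹ + algebraMap ℂ K (conj l.c) * v2) / 2
  have ha : ang l.c (v2, q2) = ang l.c (s1.1, s1.2.1) := by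
    change q2 - algebraMap ℂ K l.c * v2⁻¹ + algebraMap ℂ K (conj l.c) * v2 = _
    change ang l.c (s1.1, s1.2.1) + algebraMap ℂ K l.c * v2⁻¹ - algebraMap ℂ K (conj l.c) * v2 -
      algebraMap ℂ K l.c * v2⁻¹ + algebraMap ℂ K (conj l.c) * v2 = _
    ring
  have hs : sig l.c (v2, q2, σ2) =
      sig l.c s1 - ((1 : ℤ) : K) * algebraMap ℂ K (r : ℂ) * (w + w⁻¹) := by
    change σ2 - (algebraMap ℂ K l.c * v2⁻¹ + algebraMap ℂ K (conj l.c) * v2) / 2 = _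
    change sig l.c s1 - ((1 : ℤ) : K) * algebraMap ℂ K (r : ℂ) * (w + w⁻¹) +
      (algebraMap ℂ K l.c * v2⁻¹ + algebraMap ℂ K (conj l.c) * v2) / 2 -
      (algebraMap ℂ K l.c * v2⁻¹ + algebraMap ℂ K (conj l.c) * v2) / 2 = _
    ring
  refine ⟨(v2, q2, σ2), ⟨⟨hw, hr2.trans ha1, rfl, ha⟩, hs⟩, ⟨hw1, hr1.trans ha.symm, ?_,
    (ha2.trans ha1).trans ha.symm⟩, ?_⟩
  · dsimp only
    rw [hv2, hv1]
    change _ = (-w1 ^ 2) ^ l.n * ((-w ^ 2) ^ (1 : ℤ) * s1.1)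
    ring
  · rw [hs2, hs1, hs]
    ring

theorem Reduce_aux (L : List Letter) (c : ℂ) (r : ℝ) (hr : 0 < r) (s0 : K × K × K) (hL : Red L) :
    ∀ (s s' : K × K × K) (w : K), Rch3 L s0 s → Step3 ⟨c, r, 1⟩ w s s' →
    ∃ L' : List Letter, Red L' ∧ Rch3 L' s0 s' ∧ ∀ ρ : ℝ, ρ ≠ r → Fresh c ρ L → Fresh c ρ L' := by
  induction L with
  | nil =>
    intro s s' w h hw
    exact ⟨[⟨c, r, 1⟩], ⟨hr, one_ne_zero, trivial, trivial⟩, ⟨s, w, h, hw⟩,
      fun ρ hρ _ _ => ⟨hρ.symm, trivial⟩⟩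
  | cons l L ih =>
    obtain ⟨hl1, hl2, hl3, hl4⟩ := hL
    intro s s' w h hw
    by_cases hc : l.c = c
    · subst hc
      obtain ⟨s1, w1, hR, hS⟩ := h
      by_cases hrr : l.r = r
      · subst hrr
        obtain ⟨e, he⟩ := Reduce_merge hS hw hl1
        by_cases h0 : l.n + e = 0
        · rw [h0] at he
          refine ⟨L, hl4, ?_, fun ρ _ hF => (hF rfl).2⟩
          rw [Reduce_zero he]
          exact hR
        · exact ⟨⟨l.c, l.r, l.n + e⟩ :: L, ⟨hl1, h0, hl3, hl4⟩, ⟨s1, w1, hR, he⟩,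
            fun ρ hρ hF _ => ⟨hρ.symm, (hF rfl).2⟩⟩
      · obtain ⟨s2, h2, h3⟩ := Reduce_swap hS hw
        obtain ⟨L', hL1, hL2, hL3⟩ := ih hl4 s1 s2 w hR h2
        exact ⟨l :: L', ⟨hl1, hl2, hL3 l.r hrr hl3, hL1⟩, ⟨s2, w1, hL2, h3⟩,
          fun ρ hρ hF _ => ⟨(hF rfl).1, hL3 ρ hρ (hF rfl).2⟩⟩
    · exact ⟨⟨c, r, 1⟩ :: l :: L, ⟨hr, one_ne_zero, fun h => absurd h hc, hl1, hl2, hl3, hl4⟩,
        ⟨s, w, h, hw⟩, fun ρ hρ _ _ => ⟨hρ.symm, fun h => absurd h hc⟩⟩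

theorem reduce_step (L : List Letter) (hL : Red L) (s0 s s' : K × K × K) (h : Rch3 L s0 s)
    (hs : s.1 ≠ 0) (c : ℂ) (r : ℝ) (hr : 0 < r) (w : K) (hw : Step3 ⟨c, r, 1⟩ w s s') :
    ∃ L' : List Letter, Red L' ∧ Rch3 L' s0 s' := by
  obtain ⟨L', h1, h2, -⟩ := Reduce_aux L c r hr s0 hL s s' w h hw
  exact ⟨L', h1, h2⟩

/-- shift of the marked point -/
theorem Rch3.shift {L : List Letter} {s0 s : K × K × K} (h : Rch3 L s0 s) (t : K) :
    Rch3 L (s0.1, s0.2.1, s0.2.2 + t) (s.1, s.2.1, s.2.2 + t) := by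
  induction L generalizing s with
  | nil =>
    have h' : s = s0 := h
    subst h'
    exact rfl
  | cons l L ih =>
    obtain ⟨s', w, h1, h2, h3⟩ := h
    refine ⟨(s'.1, s'.2.1, s'.2.2 + t), w, ih h1, h2, ?_⟩
    unfold sig at h3 ⊢
    dsimp only
    linear_combination h3

end Pool.Agent.H6.Ivrii
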