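import Pool.Agent.H6.Ivrii.Orbit
import Pool.Agent.H6.Ivrii.Reduce

/-!
JOB IV-7. From families of unfolded orbits to words over the field `K` of germs of functions `Ω → ℂ` along an ultrafilter.

`(v, q, σ)` of a point `P` and unit direction `V`: `v = V`, `q = P * conj V - conj P * V`, `σ = (P * conj V + conj P * V) / 2`
(`conj V = V⁻¹`).
`uc_germ`: induction on the list. Choose `T', t, Q, W` by `Classical.choice` for every `x` in the set; the induction hypothesis gives a reduced
word for `(Q, W, T')`; the reflection is `Step3 ⟨c, r, 1⟩ w` with `w = (Q - c) / (r W)` (as a germ):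
`r (w - w⁻¹) = (Q - c) conj W - conj (Q - c) W`, `sig c = r (w + w⁻¹) / 2` before and `- r (w + w⁻¹) / 2` after; then `reduce_step`; then
`Rch3.shift` by `t` for the flight (`q` does not change, `σ` grows by `t`).
-/

set_option autoImplicit false

namespace Pool.Agent.H6.Ivrii

open ComplexConjugate Filter

variable {Ω : Type} (U : Ultrafilter Ω)

/-- the field of germs -/
abbrev GK : Type := Filter.Germ (U : Filter Ω) ℂ

/-- the class of a function -/
noncomputable def gm (f : Ω → ℂ) : GK U := (f : Filter.Germ (U : Filter Ω) ℂ)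

noncomputable instance : Algebra ℂ (GK U) :=
  Algebra.ofModule
    (fun r x y => by
      induction x using Filter.Germ.inductionOn with | _ f =>
      induction y using Filter.Germ.inductionOn with | _ g =>
      exact Filter.Germ.coe_eq.mpr (Filter.Eventually.of_forall fun x => by simp [mul_assoc]))
    (fun r x y => by
      induction x using Filter.Germ.inductionOn with | _ f =>
      induction y using Filter.Germ.inductionOn with | _ g =>
      exact Filter.Germ.coe_eq.mpr (Filter.Eventually.of_forall fun x => by simp; ring))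

theorem algebraMap_gm (c : ℂ) : algebraMap ℂ (GK U) c = gm U (fun _ => c) := by
  rw [Algebra.algebraMap_eq_smul_one]
  exact Filter.Germ.coe_eq.mpr (Filter.Eventually.of_forall fun x => by simp)

theorem gm_eq {f g : Ω → ℂ} : gm U f = gm U g ↔ ∀ᶠ x in (U : Filter Ω), f x = g x :=
  Filter.Germ.coe_eq

/-- the line with marked point through `P x` in direction `V x` -/
noncomputable def lin (P V : Ω → ℂ) : GK U × GK U × GK U :=
  (gm U V, gm U (fun x => P x * conj (V x) - conj (P x) * V x),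
    gm U (fun x => (P x * conj (V x) + conj (P x) * V x) / 2))

theorem gm_add (f g : Ω → ℂ) : gm U f + gm U g = gm U (fun x => f x + g x) := rfl

theorem gm_sub (f g : Ω → ℂ) : gm U f - gm U g = gm U (fun x => f x - g x) := rfl

theorem gm_mul (f g : Ω → ℂ) : gm U f * gm U g = gm U (fun x => f x * g x) := rfl

theorem gm_neg (f : Ω → ℂ) : -gm U f = gm U (fun x => -f x) := rfl

theorem gm_inv (f : Ω → ℂ) : (gm U f)⁻¹ = gm U (fun x => (f x)⁻¹) := rfl

theorem gm_div (f g : Ω → ℂ) : gm U f / gm U g = gm U (fun x => f x / g x) := rfl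

theorem gm_pow (f : Ω → ℂ) (n : ℕ) : (gm U f) ^ n = gm U (fun x => (f x) ^ n) := by
  induction n with
  | zero => simp only [pow_zero]; rfl
  | succ n ih => rw [pow_succ, ih, gm_mul]; simp only [pow_succ]

theorem gm_two : (2 : GK U) = gm U (fun _ => 2) := rfl

theorem gm_ne_zero {f : Ω → ℂ} (h : ∀ᶠ x in (U : Filter Ω), f x ≠ 0) : gm U f ≠ 0 := by
  intro h0
  have h1 : gm U f = gm U (fun _ => 0) := h0
  rw [gm_eq] at h1
  obtain ⟨x, hx, hx'⟩ := (h.and h1).exists
  exact hx hx'

/-- the reflection of a line with marked point on the circle -/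
theorem step3_refl (c : ℂ) (r : ℝ) (hr : 0 < r) (Q W V : Ω → ℂ)
    (h : ∀ᶠ x in (U : Filter Ω), ‖W x‖ = 1 ∧ ‖Q x - c‖ = r ∧
      V x = -((Q x - c) / r) ^ 2 * conj (W x)) :
    Step3 ⟨c, r, 1⟩ (gm U fun x => (Q x - c) / (r * W x)) (lin U Q W) (lin U Q V) := by
  have hrC : (r : ℂ) ≠ 0 := by exact_mod_cast hr.ne'
  have key : ∀ᶠ x in (U : Filter Ω), W x ≠ 0 ∧ Q x - c ≠ 0 ∧ conj (W x) = (W x)⁻¹ ∧
      conj (Q x - c) = (r : ℂ) ^ 2 / (Q x - c) ∧ V x = -((Q x - c) / r) ^ 2 * (W x)⁻¹ ∧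
      V x ≠ 0 ∧ conj (V x) = (V x)⁻¹ := by
    filter_upwards [h] with x hx
    obtain ⟨h1, h2, h3⟩ := hx
    have hW : W x ≠ 0 := by
      intro h0
      rw [h0, norm_zero] at h1
      exact zero_ne_one h1
    have hQ : Q x - c ≠ 0 := by
      intro h0
      rw [h0, norm_zero] at h2
      exact hr.ne h2
    have hcW : conj (W x) = (W x)⁻¹ := by
      rw [Complex.inv_def, Complex.normSq_eq_norm_sq, h1]
      simp
    have hcQ : conj (Q x - c) = (r : ℂ) ^ 2 / (Q x - c) := by
      rw [eq_div_iff hQ, mul_comm, Complex.mul_conj, Complex.normSq_eq_norm_sq, h2]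
      push_cast
      ring
    have hV' : V x = -((Q x - c) / r) ^ 2 * (W x)⁻¹ := by rw [h3, hcW]
    have hVn : V x ≠ 0 := by
      rw [hV']
      exact mul_ne_zero (neg_ne_zero.mpr (pow_ne_zero 2 (div_ne_zero hQ hrC))) (inv_ne_zero hW)
    refine ⟨hW, hQ, hcW, hcQ, hV', hVn, ?_⟩
    rw [hV']
    simp only [map_mul, map_neg, map_pow, map_div₀, map_inv₀, hcW, hcQ, Complex.conj_ofReal]
    field_simp
  refine ⟨⟨?_, ?_, ?_, ?_⟩, ?_⟩
  · refine gm_ne_zero U ?_
    filter_upwards [key] with x hx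
    exact div_ne_zero hx.2.1 (mul_ne_zero hrC hx.1)
  · simp only [ang, lin, algebraMap_gm, gm_inv, gm_sub, gm_mul, gm_add]
    rw [gm_eq]
    filter_upwards [key] with x hx
    obtain ⟨hW, hQ, hcW, hcQ, hV, hVn, hcV⟩ := hx
    have hcQ' : conj (Q x) = (r : ℂ) ^ 2 / (Q x - c) + conj c := by
      rw [← hcQ, map_sub]; ring
    rw [hcQ', hcW]
    field_simp
    ring
  · simp only [lin, zpow_one, gm_pow, gm_neg, gm_mul]
    rw [gm_eq]
    filter_upwards [key] with x hx
    obtain ⟨hW, hQ, hcW, hcQ, hV, hVn, hcV⟩ := hx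
    rw [hV]
    field_simp
  · simp only [ang, lin, algebraMap_gm, gm_inv, gm_sub, gm_mul, gm_add]
    rw [gm_eq]
    filter_upwards [key] with x hx
    obtain ⟨hW, hQ, hcW, hcQ, hV, hVn, hcV⟩ := hx
    have hcQ' : conj (Q x) = (r : ℂ) ^ 2 / (Q x - c) + conj c := by
      rw [← hcQ, map_sub]; ring
    rw [hcQ', hcW, hcV, hV]
    field_simp
    ring
  · simp only [sig, lin, algebraMap_gm, gm_inv, gm_mul, gm_add, gm_two, gm_div, gm_sub,
      Int.cast_one, one_mul]
    rw [gm_eq]
    filter_upwards [key] with x hx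
    obtain ⟨hW, hQ, hcW, hcQ, hV, hVn, hcV⟩ := hx
    have hcQ' : conj (Q x) = (r : ℂ) ^ 2 / (Q x - c) + conj c := by
      rw [← hcQ, map_sub]; ring
    rw [hcQ', hcW, hcV, hV]
    field_simp
    ring

theorem uc_germ (L : List (ℂ × ℝ)) (hL : ∀ p ∈ L, 0 < p.2) (P0 V0 : Ω → ℂ) (T : Ω → ℝ)
    (P V : Ω → ℂ)
    (h : ∀ᶠ x in (U : Filter Ω), ‖V0 x‖ = 1 ∧ UC L (P0 x) (V0 x) (T x) (P x) (V x)) :
    ∃ L' : List Letter, Red L' ∧
      Rch3 L' ((lin U P0 V0).1, (lin U P0 V0).2.1,
        (lin U P0 V0).2.2 + gm U (fun x => (T x : ℂ))) (lin U P V) := by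
  -- a flight
  have flight : ∀ (Q W P1 : Ω → ℂ) (t : Ω → ℝ),
      (∀ᶠ x in (U : Filter Ω), ‖W x‖ = 1 ∧ P1 x = Q x + t x * W x) →
      lin U P1 W = ((lin U Q W).1, (lin U Q W).2.1,
        (lin U Q W).2.2 + gm U (fun x => (t x : ℂ))) := by
    intro Q W P1 t hh
    have hw : ∀ᶠ x in (U : Filter Ω), W x * conj (W x) = 1 ∧ P1 x = Q x + t x * W x := by
      filter_upwards [hh] with x hx
      refine ⟨?_, hx.2⟩
      rw [Complex.mul_conj, Complex.normSq_eq_norm_sq, hx.1]
      simp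
    simp only [lin, gm_add, Prod.mk.injEq, true_and]
    constructor
    · rw [gm_eq]
      filter_upwards [hw] with x hx
      rw [hx.2]
      simp only [map_add, map_mul, Complex.conj_ofReal]
      ring
    · rw [gm_eq]
      filter_upwards [hw] with x hx
      rw [hx.2]
      simp only [map_add, map_mul, Complex.conj_ofReal]
      linear_combination (t x : ℂ) * hx.1
  induction L generalizing T P V with
  | nil =>
    refine ⟨[], trivial, ?_⟩
    show lin U P V = _
    have h1 : lin U P V = lin U P V0 := by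
      have hv : ∀ᶠ x in (U : Filter Ω), V x = V0 x := by
        filter_upwards [h] with x hx
        exact hx.2.2
      simp only [lin, Prod.mk.injEq]
      refine ⟨?_, ?_, ?_⟩ <;> rw [gm_eq] <;> filter_upwards [hv] with x hx <;> rw [hx]
    rw [h1]
    refine flight P0 V0 P T ?_
    filter_upwards [h] with x hx
    exact ⟨hx.1, hx.2.1⟩
  | cons p L ih =>
    have hp : 0 < p.2 := hL p (List.mem_cons_self ..)
    have hL' : ∀ q ∈ L, 0 < q.2 := fun q hq => hL q (List.mem_cons_of_mem _ hq)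
    have h2 : ∀ᶠ x in (U : Filter Ω), ∃ y : ℝ × ℝ × ℂ × ℂ, ‖V0 x‖ = 1 ∧
        UC L (P0 x) (V0 x) y.1 y.2.2.1 y.2.2.2 ∧ ‖y.2.2.1 - p.1‖ = p.2 ∧
        V x = -((y.2.2.1 - p.1) / p.2) ^ 2 * conj y.2.2.2 ∧ P x = y.2.2.1 + y.2.1 * V x ∧
        T x = y.1 + y.2.1 := by
      filter_upwards [h] with x hx
      obtain ⟨h0, T', t, Q, W, h1, h2, h3, h4, h5⟩ := hx
      exact ⟨(T', t, Q, W), h0, h1, h2, h3, h4, h5⟩
    obtain ⟨y, hy⟩ := h2.choice
    set T' : Ω → ℝ := fun x => (y x).1 with hT'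
    set t : Ω → ℝ := fun x => (y x).2.1 with ht
    set Q : Ω → ℂ := fun x => (y x).2.2.1 with hQ
    set W : Ω → ℂ := fun x => (y x).2.2.2 with hW
    obtain ⟨L1, hL1, hR⟩ := ih hL' T' Q W (by
      filter_upwards [hy] with x hx
      exact ⟨hx.1, hx.2.1⟩)
    have hWn : ∀ᶠ x in (U : Filter Ω), ‖W x‖ = 1 := by
      filter_upwards [hy] with x hx
      exact hx.2.1.norm hL' hx.1
    have hVn : ∀ᶠ x in (U : Filter Ω), ‖V x‖ = 1 := by
      filter_upwards [hy, hWn] with x hx hw
      have e : V x = -((Q x - p.1) / p.2) ^ 2 * conj (W x) := hx.2.2.2.1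
      have e2 : ‖Q x - p.1‖ = p.2 := hx.2.2.1
      rw [e, norm_mul, norm_neg, norm_pow, norm_div, e2, RCLike.norm_conj, hw,
        Complex.norm_real, Real.norm_eq_abs, abs_of_pos hp, div_self hp.ne']
      simp
    have hstep := step3_refl U p.1 p.2 hp Q W V (by
      filter_upwards [hy, hWn] with x hx hw
      exact ⟨hw, hx.2.2.1, hx.2.2.2.1⟩)
    have hs : (lin U Q W).1 ≠ 0 := by
      refine gm_ne_zero U ?_
      filter_upwards [hWn] with x hx h0
      rw [h0, norm_zero] at hx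
      exact zero_ne_one hx
    obtain ⟨L2, hL2, hR2⟩ := reduce_step L1 hL1 _ _ _ hR hs p.1 p.2 hp _ hstep
    refine ⟨L2, hL2, ?_⟩
    have hsh := hR2.shift (gm U fun x => (t x : ℂ))
    have e1 : lin U P V = ((lin U Q V).1, (lin U Q V).2.1,
        (lin U Q V).2.2 + gm U (fun x => (t x : ℂ))) := by
      refine flight Q V P t ?_
      filter_upwards [hy, hVn] with x hx hv
      exact ⟨hv, hx.2.2.2.2.1⟩
    have e2 : gm U (fun x => (T x : ℂ)) =
        gm U (fun x => (T' x : ℂ)) + gm U (fun x => (t x : ℂ)) := by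
      rw [gm_add, gm_eq]
      filter_upwards [hy] with x hx
      have := hx.2.2.2.2.2
      rw [this]
      push_cast
      rfl
    rw [e1, e2, ← add_assoc]
    exact hsh

end Pool.Agent.H6.Ivrii
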