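import Pool.Agent.H6.Ivrii.Univ
import Pool.Agent.H6.Ivrii.GermK
import Pool.Agent.H6.Ivrii.Null

set_option autoImplicit false

namespace Pool.Agent.H6.Ivrii

open ComplexConjugate MeasureTheory Filter

theorem gm_addC {Ω : Type} (U : Ultrafilter Ω) (f g : Ω → ℂ) :
    gm U (fun x => f x + g x) = gm U f + gm U g := rfl

theorem gm_mulC {Ω : Type} (U : Ultrafilter Ω) (f g : Ω → ℂ) :
    gm U (fun x => f x * g x) = gm U f * gm U g := rfl

theorem aeval_gm {Ω : Type} (U : Ultrafilter Ω) (f g : Ω → ℂ) (F : MvPolynomial (Fin 2) ℂ) :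
    MvPolynomial.aeval ![gm U f, gm U g] F =
      gm U (fun x => MvPolynomial.eval ![f x, g x] F) := by
  induction F using MvPolynomial.induction_on with
  | C a =>
    rw [MvPolynomial.aeval_C, algebraMap_gm]
    simp
  | add p q hp hq =>
    rw [map_add, hp, hq, ← gm_addC]
    simp
  | mul_X p i hp =>
    rw [map_mul, hp, MvPolynomial.aeval_X]
    fin_cases i
    · change _ * gm U f = _
      rw [← gm_mulC]
      simp
    · change _ * gm U g = _
      rw [← gm_mulC]
      simp

/-- closed orbits with a fixed itinerary of flat and circular mirrors form a null set -/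
theorem core (γ : ℝ → ℂ) (hγ : Continuous γ) (hinj : Set.InjOn γ (Set.Ioo (0 : ℝ) 1))
    (hshape : (∃ (ν : ℂ) (h : ℝ), ‖ν‖ = 1 ∧ ∀ s ∈ Set.Ioo (0 : ℝ) 1, (conj ν * γ s).re = h) ∨
      (∃ (c : ℂ) (r : ℝ), 0 < r ∧ ∀ s ∈ Set.Ioo (0 : ℝ) 1, ‖γ s - c‖ = r))
    (L : List Mirror) (hL : ∀ m ∈ L, m.ok) :
    volume {x : ℝ × ℝ | x.1 ∈ Set.Ioo (0 : ℝ) 1 ∧ ∃ T : ℝ, 0 < T ∧
      PO L (γ x.1) (Complex.exp (x.2 * Complex.I)) T (γ x.1)
        (Complex.exp (x.2 * Complex.I))} = 0 := by
  by_contra hne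
  set S : Set (ℝ × ℝ) := {x : ℝ × ℝ | x.1 ∈ Set.Ioo (0 : ℝ) 1 ∧ ∃ T : ℝ, 0 < T ∧
      PO L (γ x.1) (Complex.exp (x.2 * Complex.I)) T (γ x.1)
        (Complex.exp (x.2 * Complex.I))} with hS
  have hbot : NeBot (ae (volume : Measure (ℝ × ℝ)) ⊓ 𝓟 S) :=
    frequently_mem_iff_neBot.mp (frequently_ae_mem_iff.mpr hne)
  set U : Ultrafilter (ℝ × ℝ) := Ultrafilter.of (ae (volume : Measure (ℝ × ℝ)) ⊓ 𝓟 S) with hU
  have hUle : (U : Filter (ℝ × ℝ)) ≤ ae volume ⊓ 𝓟 S := Ultrafilter.of_le _
  have hUS : ∀ᶠ x in (U : Filter (ℝ × ℝ)), x ∈ S :=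
    hUle.trans inf_le_right (mem_principal_self S)
  set P0 : ℝ × ℝ → ℂ := fun x => γ x.1 with hP0
  set V0 : ℝ × ℝ → ℂ := fun x => Complex.exp (x.2 * Complex.I) with hV0
  have hV0n : ∀ x, ‖V0 x‖ = 1 := fun x => Complex.norm_exp_ofReal_mul_I x.2
  have hV0c : ∀ x, V0 x * conj (V0 x) = 1 := by
    intro x
    rw [Complex.mul_conj, Complex.normSq_eq_norm_sq, hV0n]
    simp
  have nv : ∀ F : MvPolynomial (Fin 2) ℂ, F ≠ 0 →
      ¬ ∀ᶠ x in (U : Filter (ℝ × ℝ)),
        MvPolynomial.eval ![V0 x, P0 x * conj (V0 x) - conj (P0 x) * V0 x] F = 0 := by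
    intro F hF hall
    have h1 := null_zero γ hγ hinj hshape F hF
    have h2 : ∀ᶠ x in (U : Filter (ℝ × ℝ)), x ∉ {x : ℝ × ℝ | x.1 ∈ Set.Ioo (0 : ℝ) 1 ∧
        MvPolynomial.eval ![Complex.exp (x.2 * Complex.I),
          γ x.1 * conj (Complex.exp (x.2 * Complex.I)) -
            conj (γ x.1) * Complex.exp (x.2 * Complex.I)] F = 0} :=
      hUle.trans inf_le_left (measure_eq_zero_iff_ae_notMem.mp h1)
    obtain ⟨x, hx1, hx2, hx3⟩ := (hall.and (h2.and hUS)).exists
    exact hx2 ⟨hx3.1, hx1⟩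
  have hgen : Gen (gm U V0, gm U (fun x => P0 x * conj (V0 x) - conj (P0 x) * V0 x)) := by
    change Function.Injective (MvPolynomial.aeval ![gm U V0,
      gm U (fun x => P0 x * conj (V0 x) - conj (P0 x) * V0 x)])
    rw [injective_iff_map_eq_zero]
    intro F hF
    by_contra hF0
    rw [aeval_gm] at hF
    exact nv F hF0 ((gm_eq U (g := fun _ => 0)).mp hF)
  obtain ⟨L', g, hL', hun⟩ := unfold L hL
  have hch : ∀ x : ℝ × ℝ, ∃ (T : ℝ) (P' V' : ℂ), x ∈ S → (0 < T ∧
      UC L' (P0 x) (V0 x) T P' V' ∧ P0 x = g.pt P' ∧ V0 x = g.dir V') := by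
    intro x
    by_cases hx : x ∈ S
    · obtain ⟨-, T, hT, hPO⟩ := hx
      obtain ⟨P', V', h1, h2, h3⟩ := hun _ _ T _ _ (hV0n x) hPO
      exact ⟨T, P', V', fun _ => ⟨hT, h1, h2, h3⟩⟩
    · exact ⟨0, 0, 0, fun h => absurd h hx⟩
  choose T P' V' hTPV using hch
  obtain ⟨L'', hred, hR⟩ := uc_germ U L' hL' P0 V0 T P' V'
    (hUS.mono fun x hx => ⟨hV0n x, (hTPV x hx).2.1⟩)
  have hR2 := hR.toRch
  by_cases hnil : L'' = []
  · subst hnil
    have hR3 : lin U P' V' = ((lin U P0 V0).1, (lin U P0 V0).2.1,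
        (lin U P0 V0).2.2 + gm U (fun x => (T x : ℂ))) := hR
    have e1 : ∀ᶠ x in (U : Filter (ℝ × ℝ)), V' x = V0 x :=
      (gm_eq U).mp (congrArg Prod.fst hR3)
    have e2 : ∀ᶠ x in (U : Filter (ℝ × ℝ)), P' x * conj (V' x) - conj (P' x) * V' x =
        P0 x * conj (V0 x) - conj (P0 x) * V0 x :=
      (gm_eq U).mp (congrArg (fun z => z.2.1) hR3)
    have e3 : ∀ᶠ x in (U : Filter (ℝ × ℝ)), (P' x * conj (V' x) + conj (P' x) * V' x) / 2 =
        (P0 x * conj (V0 x) + conj (P0 x) * V0 x) / 2 + T x :=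
      (gm_eq U).mp (congrArg (fun z => z.2.2) hR3)
    cases hrev : g.rev with
    | true =>
      refine nv (MvPolynomial.X 0 ^ 2 - MvPolynomial.C g.a) ?_ ?_
      · intro h0
        have := congrArg (MvPolynomial.eval ![(0 : ℂ), 0]) h0
        have h1 := congrArg (MvPolynomial.eval ![g.a + 1, (0 : ℂ)]) h0
        simp at this
        simp [this] at h1
      · filter_upwards [hUS, e1] with x hx hx1
        have h1 := (hTPV x hx).2.2.2
        rw [hx1] at h1
        simp only [Iso.dir, hrev, if_true] at h1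
        simp
        have h2 := hV0c x
        calc V0 x ^ 2 - g.a = V0 x * V0 x - g.a := by ring
          _ = V0 x * (g.a * conj (V0 x)) - g.a := by rw [← h1]
          _ = 0 := by linear_combination g.a * h2
    | false =>
      have hkey : ∀ᶠ x in (U : Filter (ℝ × ℝ)), 0 < T x ∧ (T x : ℂ) * V0 x = -g.b := by
        filter_upwards [hUS, e1, e2, e3] with x hx hx1 hx2 hx3
        obtain ⟨hT, -, h2, h3⟩ := hTPV x hx
        refine ⟨hT, ?_⟩
        rw [hx1] at h3 hx2 hx3
        simp only [Iso.dir, hrev] at h3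
        simp only [Iso.pt, Iso.dir, hrev] at h2
        have hV0x : V0 x ≠ 0 := by
          intro h
          have := hV0n x
          rw [h] at this
          simp at this
        have ha : g.a = 1 := by
          have h4 : (g.a - 1) * V0 x = 0 := by
            simp at h3
            linear_combination -h3
          rcases mul_eq_zero.mp h4 with h5 | h5
          · linear_combination h5
          · exact absurd h5 hV0x
        have hP : P' x = P0 x + T x * V0 x := by
          have h5 : P' x * conj (V0 x) = P0 x * conj (V0 x) + T x := by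
            linear_combination hx2 / 2 + hx3
          have h6 := hV0c x
          linear_combination V0 x * h5 - (P' x - P0 x) * h6
        rw [hP, ha] at h2
        simp at h2
        linear_combination -h2
      obtain ⟨x1, hx1, hx1'⟩ := hkey.exists
      have hb : g.b ≠ 0 := by
        intro hb
        rw [hb, neg_zero, mul_eq_zero] at hx1'
        rcases hx1' with h | h
        · have : T x1 = 0 := by exact_mod_cast h
          linarith
        · have := hV0n x1
          rw [h] at this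
          simp at this
      refine nv (MvPolynomial.C (conj g.b) * MvPolynomial.X 0 ^ 2 - MvPolynomial.C g.b) ?_ ?_
      · intro h0
        have := congrArg (MvPolynomial.eval ![(0 : ℂ), 0]) h0
        simp at this
        exact hb this
      · filter_upwards [hkey] with x hx
        obtain ⟨hT, h1⟩ := hx
        have h2 := congrArg conj h1
        simp at h2
        simp
        have h3 := hV0c x
        have hTne : (T x : ℂ) ≠ 0 := by exact_mod_cast hT.ne'
        linear_combination (V0 x) ^ 2 * h2 - (T x : ℂ) * V0 x * h3 - h1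
  · have hcl := fun κ => no_close L'' hred hnil _ _ hgen hR2 κ
    cases hrev : g.rev with
    | true =>
      refine (hcl g.a).2 ?_
      have hinv : (gm U V0)⁻¹ = gm U (fun x => conj (V0 x)) := by
        apply inv_eq_of_mul_eq_one_right
        rw [← gm_mulC]
        exact (gm_eq U (g := fun _ => 1)).mpr (Eventually.of_forall hV0c)
      change gm U V' = algebraMap ℂ _ g.a * (gm U V0)⁻¹
      rw [hinv, algebraMap_gm, ← gm_mulC, gm_eq]
      filter_upwards [hUS] with x hx
      have h3 := (hTPV x hx).2.2.2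
      simp only [Iso.dir, hrev, if_true] at h3
      have h4 : g.a * conj g.a = 1 := by
        rw [Complex.mul_conj, Complex.normSq_eq_norm_sq, g.ha]
        simp
      rw [h3]
      simp
      linear_combination (-(V' x)) * h4
    | false =>
      refine (hcl (conj g.a)).1 ?_
      change gm U V' = algebraMap ℂ _ (conj g.a) * gm U V0
      rw [algebraMap_gm, ← gm_mulC, gm_eq]
      filter_upwards [hUS] with x hx
      have h3 := (hTPV x hx).2.2.2
      simp only [Iso.dir, hrev] at h3
      have h4 : g.a * conj g.a = 1 := by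
        rw [Complex.mul_conj, Complex.normSq_eq_norm_sq, g.ha]
        simp
      rw [h3]
      simp
      linear_combination (-(V' x)) * h4

end Pool.Agent.H6.Ivrii
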