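import Pool.Agent.H6.Ivrii.Defs

/-!
JOB IV-4. Growth in the residue field.

`grow`: `r (b - b⁻¹) = a := ang c e` with `1 < val a`: the two roots `b₁, b₂` of `r T^2 - a T - r` have product `-1` and sum `a / r`
(`k` algebraically closed), so their values are `val a` and `(val a)⁻¹`; take the one with `val ((-b^2)^n) = (val a)^(2 |n|)`;
`e'.1 := (-b^2)^n * e.1`, `e'.2 := a + c / e'.1 - conj c * e'.1`; discriminant `a^2 + 4 r^2` has value `(val a)^2 > 1`, so it is not zero.
`ready_of`: `ang c' e = ang c e + (c - c') / e.1 - (conj c - conj c') * e.1` has value `val e.1` for `c' ≠ c`.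
-/

set_option autoImplicit false

namespace Pool.Agent.H6.Ivrii

open ComplexConjugate

variable {k : Type} [Field k] [Algebra ℂ k] [IsAlgClosed k] {Γ : Type}
  [LinearOrderedCommGroupWithZero Γ]

omit [IsAlgClosed k] in
theorem GrowK_const (val : Valuation k Γ)
    (hval : ∀ c : ℂ, c ≠ 0 → val (algebraMap ℂ k c) = 1) {c : ℂ} (hc : c ≠ 0) (x : k) :
    val (algebraMap ℂ k c * x) = val x := by
  rw [map_mul, hval c hc, one_mul]

theorem GrowK_root (val : Valuation k Γ) (hval : ∀ c : ℂ, c ≠ 0 → val (algebraMap ℂ k c) = 1)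
    {r : ℝ} (hr : 0 < r) {a : k} (ha : 1 < val a) :
    a ^ 2 + 4 * (algebraMap ℂ k (r : ℂ)) ^ 2 ≠ 0 ∧
      ∃ b : k, b ≠ 0 ∧ algebraMap ℂ k (r : ℂ) * (b - b⁻¹) = a ∧ val b = val a := by
  have hrc : (r : ℂ) ≠ 0 := by exact_mod_cast hr.ne'
  set R : k := algebraMap ℂ k (r : ℂ) with hR
  have hR0 : R ≠ 0 := by
    rw [hR]
    exact (map_ne_zero (algebraMap ℂ k)).2 hrc
  have hvR : val R = 1 := hval _ hrc
  have h4 : (4 : k) = algebraMap ℂ k 4 := (map_ofNat (algebraMap ℂ k) 4).symm
  have h2 : (2 : k) = algebraMap ℂ k 2 := (map_ofNat (algebraMap ℂ k) 2).symm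
  have h20 : (2 : k) ≠ 0 := by
    rw [h2]; exact (map_ne_zero (algebraMap ℂ k)).2 (by norm_num)
  have hv4 : val (4 * R ^ 2) = 1 := by
    rw [map_mul, map_pow, hvR, h4, hval 4 (by norm_num), one_pow, one_mul]
  have ha2 : 1 < val (a ^ 2) := by
    rw [map_pow]
    exact one_lt_pow₀ ha (by norm_num)
  refine ⟨?_, ?_⟩
  · intro h0
    have h5 : val (a ^ 2 + 4 * R ^ 2) = val (a ^ 2) :=
      Valuation.map_add_eq_of_lt_left val (by rw [hv4]; exact ha2)
    rw [h0, map_zero] at h5
    rw [← h5] at ha2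
    exact absurd ha2 (not_lt.2 zero_le_one)
  · obtain ⟨s, hs⟩ := IsAlgClosed.exists_pow_nat_eq (a ^ 2 + 4 * R ^ 2) (n := 2) (by norm_num)
    -- a root of larger value
    have main : ∀ s : k, s ^ 2 = a ^ 2 + 4 * R ^ 2 → val (a - s) ≤ val (a + s) →
        ∃ b : k, b ≠ 0 ∧ R * (b - b⁻¹) = a ∧ val b = val a := by
      intro s hs hle
      have hprod : ((a + s) / (2 * R)) * ((a - s) / (2 * R)) = -1 := by
        field_simp
        linear_combination -hs
      have hb0 : (a + s) / (2 * R) ≠ 0 := by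
        intro h0
        rw [h0, zero_mul] at hprod
        exact absurd hprod.symm (by simp)
      have hinv : ((a + s) / (2 * R))⁻¹ = -((a - s) / (2 * R)) :=
        inv_eq_of_mul_eq_one_right (by rw [mul_neg, hprod, neg_neg])
      have hv2R : val (2 * R) = 1 := by
        rw [map_mul, hvR, h2, hval 2 (by norm_num), one_mul]
      have hv1 : val ((a + s) / (2 * R)) = val (a + s) := by
        rw [map_div₀, hv2R, div_one]
      have hv2 : val ((a - s) / (2 * R)) = val (a - s) := by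
        rw [map_div₀, hv2R, div_one]
      refine ⟨(a + s) / (2 * R), hb0, ?_, ?_⟩
      · rw [hinv]
        field_simp
        ring
      · rw [hv1]
        have hpv : val (a + s) * val (a - s) = 1 := by
          rw [← hv1, ← hv2, ← map_mul, hprod, Valuation.map_neg, map_one]
        have hsum : (a + s) + (a - s) = algebraMap ℂ k 2 * a := by
          rw [← h2]; ring
        have hva : val ((a + s) + (a - s)) = val a := by
          rw [hsum, GrowK_const val hval (by norm_num)]
        have h5 : val a ≤ val (a + s) := by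
          rw [← hva]
          exact (val.map_add _ _).trans (max_le le_rfl hle)
        have h6 : 1 < val (a + s) := ha.trans_le h5
        have h7 : val (a - s) < val (a + s) := by
          have h8 : val (a - s) < 1 := by
            by_contra h9
            push Not at h9
            have h10 : 1 < val (a + s) * val (a - s) := by
              calc (1 : Γ) < val (a + s) := h6
                _ = val (a + s) * 1 := (mul_one _).symm
                _ ≤ val (a + s) * val (a - s) := mul_le_mul_right h9 _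
            rw [hpv] at h10
            exact lt_irrefl _ h10
          exact h8.trans h6
        rw [← hva, Valuation.map_add_eq_of_lt_left val h7]
    rcases le_total (val (a - s)) (val (a + s)) with h | h
    · exact main s hs h
    · refine main (-s) (by rw [neg_sq, hs]) ?_
      rw [sub_neg_eq_add, ← sub_eq_add_neg]
      exact h

theorem grow (val : Valuation k Γ) (hval : ∀ c : ℂ, c ≠ 0 → val (algebraMap ℂ k c) = 1)
    (l : Letter) (hn : l.n ≠ 0) (hr : 0 < l.r) (e : k × k) (h1 : 1 < val e.1)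
    (h2 : 1 < val (ang l.c e)) :
    (ang l.c e) ^ 2 + 4 * (algebraMap ℂ k (l.r : ℂ)) ^ 2 ≠ 0 ∧
    ∃ (b : k) (e' : k × k), Step l b e e' ∧ val e.1 < val e'.1 ∧
      val (ang l.c e') < val e'.1 ∧ 1 < val (ang l.c e') := by
  obtain ⟨hd, b, hb0, hb, hvb⟩ := GrowK_root val hval hr h2
  refine ⟨hd, ?_⟩
  -- choice of the root
  obtain ⟨b', hb'0, hb', hpow⟩ : ∃ b' : k, b' ≠ 0 ∧
      algebraMap ℂ k (l.r : ℂ) * (b' - b'⁻¹) = ang l.c e ∧
      (-b' ^ 2) ^ l.n = (-b ^ 2) ^ l.n.natAbs := by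
    rcases le_or_gt 0 l.n with h | h
    · refine ⟨b, hb0, hb, ?_⟩
      rw [← zpow_natCast (-b ^ 2) l.n.natAbs, Int.natAbs_of_nonneg h]
    · refine ⟨-b⁻¹, neg_ne_zero.2 (inv_ne_zero hb0), ?_, ?_⟩
      · rw [← hb, inv_neg, inv_inv]; ring
      · have h3 : -(-b⁻¹) ^ 2 = (-b ^ 2)⁻¹ := by
          rw [neg_sq, inv_pow, ← inv_neg]
        rw [h3, inv_zpow', ← zpow_natCast (-b ^ 2) l.n.natAbs]
        congr 1
        omega
  have hN : 1 ≤ l.n.natAbs := Int.natAbs_pos.2 hn
  have hvN : val ((-b ^ 2) ^ l.n.natAbs) = (val (ang l.c e)) ^ (2 * l.n.natAbs) := by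
    rw [map_pow, Valuation.map_neg, map_pow, hvb, pow_mul]
  have he1 : val ((-b' ^ 2) ^ l.n * e.1) = (val (ang l.c e)) ^ (2 * l.n.natAbs) * val e.1 := by
    rw [map_mul, hpow, hvN]
  have hge : val (ang l.c e) < (val (ang l.c e)) ^ (2 * l.n.natAbs) := by
    calc val (ang l.c e) = (val (ang l.c e)) ^ 1 := (pow_one _).symm
      _ < (val (ang l.c e)) ^ (2 * l.n.natAbs) := pow_lt_pow_right₀ h2 (by omega)
  have hpos : 0 < val e.1 := zero_lt_one.trans h1
  have hgt1 : 1 < (val (ang l.c e)) ^ (2 * l.n.natAbs) := h2.trans hge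
  have hne1 : (-b' ^ 2) ^ l.n * e.1 ≠ 0 := by
    intro h0
    rw [h0, map_zero] at he1
    have h3 : 0 < (val (ang l.c e)) ^ (2 * l.n.natAbs) * val e.1 :=
      mul_pos (zero_lt_one.trans hgt1) hpos
    rw [← he1] at h3
    exact lt_irrefl _ h3
  have hang : ang l.c ((-b' ^ 2) ^ l.n * e.1, ang l.c e +
      algebraMap ℂ k l.c * ((-b' ^ 2) ^ l.n * e.1)⁻¹ -
        algebraMap ℂ k (conj l.c) * ((-b' ^ 2) ^ l.n * e.1)) = ang l.c e := by
    rw [ang]
    ring
  refine ⟨b', ((-b' ^ 2) ^ l.n * e.1, ang l.c e +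
      algebraMap ℂ k l.c * ((-b' ^ 2) ^ l.n * e.1)⁻¹ -
        algebraMap ℂ k (conj l.c) * ((-b' ^ 2) ^ l.n * e.1)), ⟨hb'0, hb', rfl, hang⟩, ?_, ?_, ?_⟩
  · show val e.1 < val ((-b' ^ 2) ^ l.n * e.1)
    rw [he1]
    exact lt_mul_of_one_lt_left hpos hgt1
  · rw [hang]
    show val (ang l.c e) < val ((-b' ^ 2) ^ l.n * e.1)
    rw [he1]
    exact hge.trans (lt_mul_of_one_lt_right (zero_lt_one.trans hgt1) h1)
  · rw [hang]
    exact h2

omit [IsAlgClosed k] in
theorem ready_of (val : Valuation k Γ) (hval : ∀ c : ℂ, c ≠ 0 → val (algebraMap ℂ k c) = 1)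
    (e : k × k) (c c' : ℂ) (h0 : 1 < val e.1) (h1 : 1 < val (ang c e) ∨ c' ≠ c)
    (h2 : val (ang c e) < val e.1) : 1 < val (ang c' e) := by
  by_cases hcc : c' = c
  · rcases h1 with h1 | h1
    · rw [hcc]; exact h1
    · exact absurd hcc h1
  · have hc1 : c - c' ≠ 0 := sub_ne_zero.2 (Ne.symm hcc)
    have hc2 : conj (c' - c) ≠ 0 := by
      rw [Ne, map_eq_zero]
      exact sub_ne_zero.2 hcc
    have hpos : 0 < val e.1 := zero_lt_one.trans h0
    have hang : ang c' e = (ang c e + algebraMap ℂ k (c - c') * e.1⁻¹) +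
        algebraMap ℂ k (conj (c' - c)) * e.1 := by
      simp only [ang, map_sub]
      ring
    have hv3 : val (algebraMap ℂ k (conj (c' - c)) * e.1) = val e.1 :=
      GrowK_const val hval hc2 _
    have hv2 : val (algebraMap ℂ k (c - c') * e.1⁻¹) < val e.1 := by
      rw [GrowK_const val hval hc1, map_inv₀]
      exact (inv_lt_one_of_one_lt₀ h0).trans h0
    have hv12 : val (ang c e + algebraMap ℂ k (c - c') * e.1⁻¹) <
        val (algebraMap ℂ k (conj (c' - c)) * e.1) := by
      rw [hv3]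
      exact Valuation.map_add_lt val h2 hv2
    rw [hang, Valuation.map_add_eq_of_lt_right val hv12, hv3]
    exact h0

end Pool.Agent.H6.Ivrii
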