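import Pool.Agent.H6.Ivrii.Defs

/-!
JOB IV-2b. Hensel roots over `k⟦X⟧`, the non-square, a generic pair.

* `exists_root`: Hensel (`IsAdicComplete.henselianRing`, `Mathlib/RingTheory/AdicCompletion/Completeness.lean` has the instance for `PowerSeries`)
  for the monic polynomial `Y ^ 2 - (a / r) Y - 1` at `b`; derivative at `b` is `2 b - a(0) / r = b + b⁻¹`, nonzero because
  `r ^ 2 (b + b⁻¹) ^ 2 = a(0) ^ 2 + 4 r ^ 2`.
* `no_root`: otherwise `(2 r ω - (2 i r + X)) ^ 2 = X (4 i r + X)` would be a square in the fraction field; compare orders in `k⟦X⟧`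
  after clearing the denominator (`PowerSeries.order_mul`).
* `gen_pair`: if `F(x, y + X) = 0` with `F ≠ 0`, write `F` as a polynomial in the second variable with coefficients `F_j(x) ≠ 0` (x transcendental); a non-zero
  polynomial over `k` does not vanish at the power series `C y + X` (translate by `y`; coefficients of `Polynomial k → k⟦X⟧`).
-/

set_option autoImplicit false

namespace Pool.Agent.H6.Ivrii

open ComplexConjugate

variable {k : Type} [Field k] [Algebra ℂ k]

theorem exists_root (a : PowerSeries k) {r : ℂ} (hr : r ≠ 0) {b : k} (hb : b ≠ 0)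
    (hroot : algebraMap ℂ k r * (b - b⁻¹) = PowerSeries.constantCoeff a)
    (hdisc : (PowerSeries.constantCoeff a) ^ 2 + 4 * (algebraMap ℂ k r) ^ 2 ≠ 0) :
    ∃ w : PowerSeries k, PowerSeries.constantCoeff w = b ∧
      PowerSeries.C (algebraMap ℂ k r) * (w ^ 2 - 1) = a * w := by
  set s : k := algebraMap ℂ k r with hs
  have hs0 : s ≠ 0 := by
    rw [hs, Ne, map_eq_zero]
    exact hr
  set u : PowerSeries k := PowerSeries.C s⁻¹ * a with hu
  have hsu : PowerSeries.C s * u = a := by
    rw [hu, ← mul_assoc, ← map_mul, mul_inv_cancel₀ hs0, map_one, one_mul]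
  set f : Polynomial (PowerSeries k) := Polynomial.X ^ 2 + (-(Polynomial.C u * Polynomial.X) - 1)
    with hf
  have hmonic : f.Monic := by
    refine Polynomial.monic_X_pow_add ?_
    have : (-(Polynomial.C u * Polynomial.X) - 1 : Polynomial (PowerSeries k)).degree ≤ 1 := by
      compute_degree
    exact lt_of_le_of_lt this (by norm_num)
  have hconst : PowerSeries.constantCoeff u = b - b⁻¹ := by
    rw [hu, map_mul, PowerSeries.constantCoeff_C, ← hroot, ← mul_assoc, inv_mul_cancel₀ hs0, one_mul]
  have h1 : f.eval (PowerSeries.C b) ∈ Ideal.span {(PowerSeries.X : PowerSeries k)} := by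
    rw [Ideal.mem_span_singleton, PowerSeries.X_dvd_iff]
    simp only [hf, Polynomial.eval_add, Polynomial.eval_pow, Polynomial.eval_X,
      Polynomial.eval_sub, Polynomial.eval_neg, Polynomial.eval_mul, Polynomial.eval_C,
      Polynomial.eval_one, map_add, map_pow, map_sub, map_neg, map_mul,
      PowerSeries.constantCoeff_C, map_one, hconst]
    field_simp
    ring
  have h2 : IsUnit (Ideal.Quotient.mk (Ideal.span {(PowerSeries.X : PowerSeries k)})
      (f.derivative.eval (PowerSeries.C b))) := by
    refine IsUnit.map _ ?_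
    rw [PowerSeries.isUnit_iff_constantCoeff]
    have h3 : PowerSeries.constantCoeff (f.derivative.eval (PowerSeries.C b)) = b + b⁻¹ := by
      have h4 : f.derivative = 2 * Polynomial.X - Polynomial.C u := by
        simp only [hf, Polynomial.derivative_add, Polynomial.derivative_X_pow,
          Polynomial.derivative_sub, Polynomial.derivative_neg, Polynomial.derivative_mul,
          Polynomial.derivative_C, Polynomial.derivative_X, Polynomial.derivative_one]
        simp
        rw [show (Polynomial.C (2 : PowerSeries k)) = 2 from map_ofNat _ 2]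
        ring
      rw [h4]
      simp only [Polynomial.eval_sub, Polynomial.eval_mul, Polynomial.eval_ofNat,
        Polynomial.eval_X, Polynomial.eval_C, map_sub, map_mul, PowerSeries.constantCoeff_C, hconst]
      rw [map_ofNat]
      ring
    rw [h3, isUnit_iff_ne_zero]
    intro h4
    apply hdisc
    rw [← hroot]
    have h5 : (s * (b - b⁻¹)) ^ 2 + 4 * s ^ 2 = s ^ 2 * (b + b⁻¹) ^ 2 := by
      field_simp
      ring
    rw [h5, h4]
    ring
  obtain ⟨w, hw, hwb⟩ := HenselianRing.is_henselian
    (I := Ideal.span {(PowerSeries.X : PowerSeries k)}) f hmonic _ h1 h2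
  refine ⟨w, ?_, ?_⟩
  · rw [Ideal.mem_span_singleton, PowerSeries.X_dvd_iff, map_sub, PowerSeries.constantCoeff_C] at hwb
    exact sub_eq_zero.1 hwb
  · have h3 : w ^ 2 + (-(u * w) - 1) = 0 := by
      have h4 : f.eval w = 0 := hw
      simpa only [hf, Polynomial.eval_add, Polynomial.eval_pow, Polynomial.eval_X,
        Polynomial.eval_sub, Polynomial.eval_neg, Polynomial.eval_mul, Polynomial.eval_C,
        Polynomial.eval_one] using h4
    rw [← hsu]
    linear_combination PowerSeries.C s * h3

omit [Algebra ℂ k] in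
/-- `X * v` with `v` a unit is not a square in the fraction field of `k⟦X⟧`. -/
theorem hens_not_sq {v : PowerSeries k} (hv : PowerSeries.constantCoeff v ≠ 0)
    (u : FractionRing (PowerSeries k))
    (h : u ^ 2 = algebraMap (PowerSeries k) (FractionRing (PowerSeries k)) (PowerSeries.X * v)) :
    False := by
  obtain ⟨p, q, hq, rfl⟩ := IsFractionRing.div_surjective (A := PowerSeries k) u
  have hq0 : q ≠ 0 := nonZeroDivisors.ne_zero hq
  have hq1 : algebraMap (PowerSeries k) (FractionRing (PowerSeries k)) q ≠ 0 := by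
    rw [Ne, FaithfulSMul.algebraMap_eq_zero_iff]
    exact hq0
  rw [div_pow, div_eq_iff (pow_ne_zero 2 hq1), ← map_pow, ← map_pow, ← map_mul] at h
  have h1 : p ^ 2 = PowerSeries.X * v * q ^ 2 :=
    IsFractionRing.injective (PowerSeries k) (FractionRing (PowerSeries k)) h
  have hv0 : v ≠ 0 := by
    rintro rfl
    exact hv (map_zero _)
  have hX0 : (PowerSeries.X : PowerSeries k) ≠ 0 := PowerSeries.X_ne_zero
  have hp0 : p ≠ 0 := by
    rintro rfl
    have : PowerSeries.X * v * q ^ 2 = 0 := by rw [← h1]; simp
    exact (mul_ne_zero (mul_ne_zero hX0 hv0) (pow_ne_zero 2 hq0)) this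
  have hvo : v.order = 0 := by
    have := PowerSeries.order_eq_nat (φ := v) (n := 0)
    rw [Nat.cast_zero] at this
    rw [this]
    refine ⟨?_, fun i hi => absurd hi (Nat.not_lt_zero i)⟩
    rwa [PowerSeries.coeff_zero_eq_constantCoeff_apply]
  have h2 := congrArg PowerSeries.order h1
  rw [pow_two, pow_two, PowerSeries.order_mul, PowerSeries.order_mul, PowerSeries.order_mul,
    PowerSeries.order_mul, PowerSeries.order_X, hvo] at h2
  obtain ⟨m, hm⟩ := ENat.ne_top_iff_exists.1 (mt PowerSeries.order_eq_top.1 hp0)
  obtain ⟨n, hn⟩ := ENat.ne_top_iff_exists.1 (mt PowerSeries.order_eq_top.1 hq0)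
  rw [← hm, ← hn] at h2
  have h3 : m + m = 1 + 0 + (n + n) := by exact_mod_cast h2
  omega

theorem hens_sq {F : Type} [Field F] {ρ i' x ω : F} (hω : ω ≠ 0) (hii : i' ^ 2 = -4 * ρ ^ 2)
    (h : ρ * (ω - ω⁻¹) = i' + x) : (2 * ρ * ω - (i' + x)) ^ 2 = x * (2 * i' + x) := by
  have h1 : ρ * (ω ^ 2 - 1) = (i' + x) * ω := by
    rw [← h]
    field_simp
  linear_combination 4 * ρ * h1 + hii

theorem no_root {r : ℝ} (hr : 0 < r) : ¬ ∃ ω : FractionRing (PowerSeries k), ω ≠ 0 ∧
    algebraMap ℂ (FractionRing (PowerSeries k)) (r : ℂ) * (ω - ω⁻¹) =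
      algebraMap ℂ (FractionRing (PowerSeries k)) (2 * Complex.I * r) +
        algebraMap (PowerSeries k) (FractionRing (PowerSeries k)) PowerSeries.X := by
  rintro ⟨ω, hω, h⟩
  have hii : (algebraMap ℂ (FractionRing (PowerSeries k)) (2 * Complex.I * r)) ^ 2 =
      -4 * (algebraMap ℂ (FractionRing (PowerSeries k)) (r : ℂ)) ^ 2 := by
    rw [← map_pow, ← map_pow]
    have h4 : (-4 : FractionRing (PowerSeries k)) = algebraMap ℂ _ (-4) := by
      rw [map_neg, map_ofNat]
    rw [h4, ← map_mul]
    congr 1
    have := Complex.I_sq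
    linear_combination 4 * (r : ℂ) ^ 2 * this
  have h2 := hens_sq hω hii h
  have h3 : 2 * (algebraMap ℂ (FractionRing (PowerSeries k)) (2 * Complex.I * r)) +
      algebraMap (PowerSeries k) (FractionRing (PowerSeries k)) PowerSeries.X =
      algebraMap (PowerSeries k) (FractionRing (PowerSeries k))
      (PowerSeries.C (algebraMap ℂ k (2 * (2 * Complex.I * r))) + PowerSeries.X) := by
    have h5 : (PowerSeries.C (algebraMap ℂ k (2 * (2 * Complex.I * r))) : PowerSeries k) =
        2 * PowerSeries.C (algebraMap ℂ k (2 * Complex.I * r)) := by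
      rw [map_mul (algebraMap ℂ k) 2, map_mul PowerSeries.C, map_ofNat, map_ofNat]
    rw [h5, map_add, map_mul (algebraMap (PowerSeries k) (FractionRing (PowerSeries k))) 2,
      map_ofNat, IsScalarTower.algebraMap_apply ℂ (PowerSeries k) (FractionRing (PowerSeries k)),
      PowerSeries.algebraMap_apply]
  rw [h3, ← map_mul] at h2
  refine hens_not_sq ?_ _ h2
  rw [map_add, PowerSeries.constantCoeff_C, PowerSeries.constantCoeff_X, add_zero, Ne, map_eq_zero]
  have : (r : ℂ) ≠ 0 := by exact_mod_cast hr.ne'
  simp [this, Complex.I_ne_zero]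

omit [Algebra ℂ k] in
theorem hens_transc (y : k) :
    Transcendental k (PowerSeries.C y + PowerSeries.X : PowerSeries k) := by
  intro h
  have h1 : IsAlgebraic k (PowerSeries.C y : PowerSeries k) := by
    have := isAlgebraic_algebraMap (A := PowerSeries k) y
    rwa [PowerSeries.algebraMap_apply] at this
  have h2 : IsAlgebraic k (PowerSeries.X : PowerSeries k) := by
    have := h.sub h1
    rwa [add_sub_cancel_left] at this
  have hinj : Function.Injective (Polynomial.coeToPowerSeries.algHom (R := k) k) := by
    intro p q hpq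
    rw [Polynomial.coeToPowerSeries.algHom_apply, Polynomial.coeToPowerSeries.algHom_apply] at hpq
    exact Polynomial.coe_injective k (by simpa using hpq)
  have h3 : Polynomial.coeToPowerSeries.algHom (R := k) k Polynomial.X = PowerSeries.X := by
    rw [Polynomial.coeToPowerSeries.algHom_apply]
    simp
  rw [← h3] at h2
  exact Polynomial.transcendental_X k ((isAlgebraic_algHom_iff _ hinj).1 h2)

/-- generic pairs in `Frac k⟦X⟧`: `(x, y + X)` with `x` transcendental over `ℂ` -/
theorem gen_pair {x : k} (hx : Transcendental ℂ x) (y : k) :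
    Gen ((algebraMap (PowerSeries k) (FractionRing (PowerSeries k)) (PowerSeries.C x),
      algebraMap (PowerSeries k) (FractionRing (PowerSeries k))
        (PowerSeries.C y + PowerSeries.X)) :
      FractionRing (PowerSeries k) × FractionRing (PowerSeries k)) := by
  have hx1 : AlgebraicIndependent ℂ ![x] := algebraicIndependent_iff_transcendental.2 hx
  have hy1 : AlgebraicIndependent k ![(PowerSeries.C y + PowerSeries.X : PowerSeries k)] :=
    algebraicIndependent_iff_transcendental.2 (hens_transc y)
  have h1 := AlgebraicIndependent.sumElim_comp hx1 hy1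
  have h2 := h1.comp ![Sum.inr 0, Sum.inl 0] (by
    intro i j hij
    fin_cases i <;> fin_cases j <;> simp_all)
  have h3 := h2.map' (f := IsScalarTower.toAlgHom ℂ (PowerSeries k) (FractionRing (PowerSeries k)))
    (IsFractionRing.injective (PowerSeries k) (FractionRing (PowerSeries k)))
  have e : (![(algebraMap (PowerSeries k) (FractionRing (PowerSeries k)) (PowerSeries.C x)),
      (algebraMap (PowerSeries k) (FractionRing (PowerSeries k))
        (PowerSeries.C y + PowerSeries.X))] : Fin 2 → FractionRing (PowerSeries k)) =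
      (⇑(IsScalarTower.toAlgHom ℂ (PowerSeries k) (FractionRing (PowerSeries k))) ∘
      Sum.elim ![PowerSeries.C y + PowerSeries.X] (⇑(algebraMap k (PowerSeries k)) ∘ ![x]) ∘
        ![Sum.inr 0, Sum.inl 0]) := by
    funext i
    fin_cases i
    · simp
    · simp
  unfold Gen
  simp only
  rw [e]
  exact h3

end Pool.Agent.H6.Ivrii
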