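import Pool.Agent.H6.Ivrii.GenT
import Pool.Agent.H6.Ivrii.Hens

/-!
JOB IV-3. Lifting a step from the residue field `k` to `Frac k⟦X⟧`.
`Lifts s e`: the line `s` over `Frac k⟦X⟧` has power series entries with constant coefficients `e.1 ≠ 0`, `e.2`.
Then `ang c s` is the power series `Q - C c * V⁻¹ + C (conj c) * V` (`PowerSeries.inv`, `V` is a unit) with constant coefficient `ang c e`.
`lift_step`: take `w` from `exists_root` (`r (b - b⁻¹) = ang c e` is part of `Step l b e e'`); `w` is a unit because its constant coefficient is `b ≠ 0`;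
`s'.1 := (-w^2)^n * s.1`, `s'.2 := ang c s + c / s'.1 - conj c * s'.1`. `lift_step_back` from `Step.symm`.
-/

set_option autoImplicit false

namespace Pool.Agent.H6.Ivrii

open ComplexConjugate

variable {k : Type} [Field k] [Algebra ℂ k]

/-- `s` is given by power series with constant coefficients `e` -/
def Lifts (s : FractionRing (PowerSeries k) × FractionRing (PowerSeries k)) (e : k × k) : Prop :=
  ∃ V Q : PowerSeries k,
    s.1 = algebraMap (PowerSeries k) (FractionRing (PowerSeries k)) V ∧
    s.2 = algebraMap (PowerSeries k) (FractionRing (PowerSeries k)) Q ∧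
    PowerSeries.constantCoeff V = e.1 ∧ PowerSeries.constantCoeff Q = e.2 ∧ e.1 ≠ 0

theorem algC (z : ℂ) : algebraMap ℂ (FractionRing (PowerSeries k)) z =
    algebraMap (PowerSeries k) (FractionRing (PowerSeries k))
      (PowerSeries.C (algebraMap ℂ k z)) := by
  rw [IsScalarTower.algebraMap_apply ℂ (PowerSeries k) (FractionRing (PowerSeries k)),
    PowerSeries.algebraMap_apply]

omit [Algebra ℂ k] in
theorem alg_inv {V : PowerSeries k} (h : PowerSeries.constantCoeff V ≠ 0) :
    (algebraMap (PowerSeries k) (FractionRing (PowerSeries k)) V)⁻¹ =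
      algebraMap (PowerSeries k) (FractionRing (PowerSeries k)) V⁻¹ := by
  have h1 : algebraMap (PowerSeries k) (FractionRing (PowerSeries k)) V *
      algebraMap (PowerSeries k) (FractionRing (PowerSeries k)) V⁻¹ = 1 := by
    rw [← map_mul, PowerSeries.mul_inv_cancel V h, map_one]
  exact inv_eq_of_mul_eq_one_right h1

theorem lift_step {l : Letter} (hr : 0 < l.r) {b : k} {e e' : k × k} (hstep : Step l b e e')
    (hdisc : (ang l.c e) ^ 2 + 4 * (algebraMap ℂ k (l.r : ℂ)) ^ 2 ≠ 0)
    {s : FractionRing (PowerSeries k) × FractionRing (PowerSeries k)} (hs : Lifts s e) :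
    ∃ (w : FractionRing (PowerSeries k))
      (s' : FractionRing (PowerSeries k) × FractionRing (PowerSeries k)),
      Step l w s s' ∧ Lifts s' e' := by
  obtain ⟨V, Q, hV, hQ, hV0, hQ0, he⟩ := hs
  obtain ⟨hb, hroot, he1, he2⟩ := hstep
  set ι := algebraMap (PowerSeries k) (FractionRing (PowerSeries k)) with hι
  have hVne : PowerSeries.constantCoeff V ≠ 0 := by rw [hV0]; exact he
  set a : PowerSeries k := Q - PowerSeries.C (algebraMap ℂ k l.c) * V⁻¹ +
    PowerSeries.C (algebraMap ℂ k (conj l.c)) * V with ha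
  have ha0 : PowerSeries.constantCoeff a = ang l.c e := by
    rw [ha]
    simp only [map_add, map_sub, map_mul, PowerSeries.constantCoeff_C,
      PowerSeries.constantCoeff_inv, hV0, hQ0, ang]
  have haι : ang l.c s = ι a := by
    rw [ang, hV, hQ, alg_inv hVne, algC, algC, ha]
    simp only [← hι, map_add, map_sub, map_mul]
  have hr' : (l.r : ℂ) ≠ 0 := by exact_mod_cast hr.ne'
  obtain ⟨W, hW0, hW⟩ := exists_root a hr' hb (by rw [ha0]; exact hroot) (by rw [ha0]; exact hdisc)
  have hinj : Function.Injective ι := IsFractionRing.injective _ _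
  have hWne : W ≠ 0 := by
    rintro rfl
    rw [map_zero] at hW0
    exact hb hW0.symm
  have hw : ι W ≠ 0 := (map_ne_zero_iff ι hinj).2 hWne
  -- the unit `-W^2`
  have hunit : IsUnit (-W ^ 2) := by
    rw [PowerSeries.isUnit_iff_constantCoeff, map_neg, map_pow, hW0]
    exact (neg_ne_zero.2 (pow_ne_zero 2 hb)).isUnit
  obtain ⟨u, hu⟩ := hunit
  have huι : ∀ n : ℤ, ι ((u ^ n : (PowerSeries k)ˣ) : PowerSeries k) = (-(ι W) ^ 2) ^ n := by
    intro n
    have h1 : ((Units.map (ι : PowerSeries k →* FractionRing (PowerSeries k)) (u ^ n) :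
        (FractionRing (PowerSeries k))ˣ) : FractionRing (PowerSeries k)) =
        ι ((u ^ n : (PowerSeries k)ˣ) : PowerSeries k) := rfl
    rw [← h1, map_zpow, Units.val_zpow_eq_zpow_val]
    congr 1
    change ι (u : PowerSeries k) = _
    rw [hu, map_neg, map_pow]
  have hu0 : ∀ n : ℤ, PowerSeries.constantCoeff ((u ^ n : (PowerSeries k)ˣ) : PowerSeries k) =
      (-b ^ 2) ^ n := by
    intro n
    have h1 : ((Units.map ((PowerSeries.constantCoeff (R := k)) : PowerSeries k →* k) (u ^ n) :
        kˣ) : k) =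
        PowerSeries.constantCoeff ((u ^ n : (PowerSeries k)ˣ) : PowerSeries k) := rfl
    rw [← h1, map_zpow, Units.val_zpow_eq_zpow_val]
    congr 1
    change PowerSeries.constantCoeff (u : PowerSeries k) = _
    rw [hu, map_neg, map_pow, hW0]
  set V' : PowerSeries k := ((u ^ l.n : (PowerSeries k)ˣ) : PowerSeries k) * V with hV'
  have hV'0 : PowerSeries.constantCoeff V' = e'.1 := by
    rw [hV', map_mul, hu0, hV0, he1]
  have he'ne : e'.1 ≠ 0 := by
    rw [he1]
    exact mul_ne_zero (zpow_ne_zero _ (neg_ne_zero.2 (pow_ne_zero 2 hb))) he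
  have hV'ne : PowerSeries.constantCoeff V' ≠ 0 := by rw [hV'0]; exact he'ne
  set Q' : PowerSeries k := a + PowerSeries.C (algebraMap ℂ k l.c) * V'⁻¹ -
    PowerSeries.C (algebraMap ℂ k (conj l.c)) * V' with hQ'
  refine ⟨ι W, (ι V', ι Q'), ⟨hw, ?_, ?_, ?_⟩, ⟨V', Q', rfl, rfl, hV'0, ?_, he'ne⟩⟩
  · rw [haι, algC]
    have h1 := congrArg ι hW
    simp only [map_mul, map_sub, map_pow, map_one] at h1
    field_simp
    linear_combination h1
  · simp only [hV', map_mul]
    rw [huι, hV]
  · rw [haι]
    simp only [ang]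
    rw [alg_inv hV'ne, algC, algC, hQ']
    simp only [map_add, map_sub, map_mul]
    ring
  · rw [hQ']
    simp only [map_add, map_sub, map_mul, PowerSeries.constantCoeff_C,
      PowerSeries.constantCoeff_inv, hV'0, ha0]
    rw [← he2, ang]
    ring

theorem lift_step_back {l : Letter} (hr : 0 < l.r) {b : k} {e e' : k × k} (hstep : Step l b e' e)
    (hdisc : (ang l.c e) ^ 2 + 4 * (algebraMap ℂ k (l.r : ℂ)) ^ 2 ≠ 0)
    {s : FractionRing (PowerSeries k) × FractionRing (PowerSeries k)} (hs : Lifts s e) :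
    ∃ (w : FractionRing (PowerSeries k))
      (s' : FractionRing (PowerSeries k) × FractionRing (PowerSeries k)),
      Step l w s' s ∧ Lifts s' e' := by
  obtain ⟨w, s', h1, h2⟩ := lift_step (l := { l with n := -l.n }) hr hstep.symm hdisc hs
  refine ⟨w, s', ?_, h2⟩
  have h3 := h1.symm
  simp only [neg_neg] at h3
  exact h3

end Pool.Agent.H6.Ivrii
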