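import Pool.Agent.H6.Ivrii.GenT
import Pool.Agent.H6.Ivrii.Lift
import Pool.Agent.H6.Ivrii.GrowK

/-!
JOB IV-4b. The chains over `Frac k⟦X⟧` (from `grow`, `ready_of`, `lift_step`, `lift_step_back`).

`forward`: induction on `L` (`grow` for the letter, `ready_of` for every centre, `lift_step`).
`backward`: induction on `L`, generalised over `s`, `e`: for `l :: L` use `grow` for the letter `{l with n := -l.n}` at `e`, `Step.symm`, `lift_step_back`.
`backward_one`: induction on `L`, generalised over `s`, `e`; letters with centre `c` have radius `ρ ≠ r` (`Fresh`): solve `ρ (b - b⁻¹) = 2 i r` with `b` COMPLEX and nonzero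
(then `val b = 1`, discriminant `4 (ρ^2 - r^2) ≠ 0`), which does not change `ang c e` nor `val e.1`; at the first letter with another centre
`c'`: `ang c' e` has value `val e.1 > 1` (`ready_of`, second alternative, for the letter; `val (2 i r) = 1 < val e.1`), use `grow` for the letter with exponent `-n`
(`Step.symm`, `lift_step_back`) and then `backward`.
-/

set_option autoImplicit false

namespace Pool.Agent.H6.Ivrii

open ComplexConjugate

variable {k : Type} [Field k] [Algebra ℂ k] [IsAlgClosed k] {Γ : Type}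
  [LinearOrderedCommGroupWithZero Γ]

/-- one growth step backwards -/
theorem chains_back_step (val : Valuation k Γ)
    (hval : ∀ c : ℂ, c ≠ 0 → val (algebraMap ℂ k c) = 1)
    (l : Letter) (hn : l.n ≠ 0) (hr : 0 < l.r)
    (s : FractionRing (PowerSeries k) × FractionRing (PowerSeries k)) (e : k × k)
    (hs : Lifts s e) (h1 : 1 < val e.1) (h2 : 1 < val (ang l.c e)) :
    ∃ (e' : k × k) (w : FractionRing (PowerSeries k))
      (s' : FractionRing (PowerSeries k) × FractionRing (PowerSeries k)),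
      Step l w s' s ∧ Lifts s' e' ∧ 1 < val e'.1 ∧ ∀ c, 1 < val (ang c e') := by
  obtain ⟨hd, b, e', g1, g2, g3, g4⟩ :=
    grow val hval { l with n := -l.n } (by simpa using hn) hr e h1 h2
  have g1' : Step l b e' e := by
    have := g1.symm
    simpa using this
  obtain ⟨w, s', m1, m2⟩ := lift_step_back hr g1' hd hs
  exact ⟨e', w, s', m1, m2, h1.trans g2, fun c =>
    ready_of val hval e' l.c c (h1.trans g2) (Or.inl g4) g3⟩

/-- the complex root -/
theorem chains_root (r ρ : ℝ) (hρ : 0 < ρ) :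
    ∃ b : ℂ, b ≠ 0 ∧ (ρ : ℂ) * (b - b⁻¹) = 2 * Complex.I * r := by
  obtain ⟨z, hz⟩ := IsAlgClosed.exists_pow_nat_eq (1 - (r / ρ : ℂ) ^ 2) (n := 2) (by norm_num)
  have hρ' : (ρ : ℂ) ≠ 0 := by exact_mod_cast hρ.ne'
  set b : ℂ := Complex.I * (r / ρ : ℂ) + z with hb
  have h1 : b * (b - 2 * Complex.I * (r / ρ : ℂ)) = 1 := by
    rw [hb]
    have := Complex.I_sq
    linear_combination hz - (r / ρ : ℂ) ^ 2 * this
  have hb0 : b ≠ 0 := by
    intro h
    rw [h, zero_mul] at h1
    exact zero_ne_one h1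
  refine ⟨b, hb0, ?_⟩
  have h2 : b⁻¹ = b - 2 * Complex.I * (r / ρ : ℂ) := by
    rw [inv_eq_of_mul_eq_one_right h1]
  rw [h2]
  field_simp
  ring

/-- the letters of a reduced word -/
theorem red_mem {L : List Letter} (hL : Red L) : ∀ l ∈ L, 0 < l.r ∧ l.n ≠ 0 := by
  induction L with
  | nil => intro l hl; simp at hl
  | cons a L ih =>
    obtain ⟨h1, h2, -, h3⟩ := hL
    intro l hl
    rcases List.mem_cons.1 hl with rfl | h
    · exact ⟨h1, h2⟩
    · exact ih h3 l h

theorem forward (val : Valuation k Γ) (hval : ∀ c : ℂ, c ≠ 0 → val (algebraMap ℂ k c) = 1)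
    (L : List Letter) (hL : ∀ l ∈ L, 0 < l.r ∧ l.n ≠ 0)
    (s0 : FractionRing (PowerSeries k) × FractionRing (PowerSeries k)) (e0 : k × k)
    (hs : Lifts s0 e0) (h1 : 1 < val e0.1) (h2 : ∀ c, 1 < val (ang c e0)) :
    ∃ (s : FractionRing (PowerSeries k) × FractionRing (PowerSeries k)) (e : k × k),
      Rch L s0 s ∧ Lifts s e ∧ (∀ c, 1 < val (ang c e)) ∧ val e0.1 ≤ val e.1 ∧
        (L ≠ [] → val e0.1 < val e.1) := by
  induction L with
  | nil => exact ⟨s0, e0, rfl, hs, h2, le_rfl, fun h => absurd rfl h⟩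
  | cons l L ih =>
    obtain ⟨s', e', k1, k2, k3, k4, -⟩ := ih (fun l' hl' => hL l' (List.mem_cons_of_mem _ hl'))
    obtain ⟨hr, hn⟩ := hL l (by simp)
    have h1' : 1 < val e'.1 := lt_of_lt_of_le h1 k4
    obtain ⟨hd, b, e'', g1, g2, g3, g4⟩ := grow val hval l hn hr e' h1' (k3 l.c)
    obtain ⟨w, s'', m1, m2⟩ := lift_step hr g1 hd k2
    refine ⟨s'', e'', ⟨s', w, k1, m1⟩, m2, fun c => ?_, (k4.trans g2.le), fun _ =>
      lt_of_le_of_lt k4 g2⟩
    exact ready_of val hval e'' l.c c (h1'.trans g2) (Or.inl g4) g3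

theorem backward (val : Valuation k Γ) (hval : ∀ c : ℂ, c ≠ 0 → val (algebraMap ℂ k c) = 1)
    (L : List Letter) (hL : ∀ l ∈ L, 0 < l.r ∧ l.n ≠ 0)
    (s : FractionRing (PowerSeries k) × FractionRing (PowerSeries k)) (e : k × k)
    (hs : Lifts s e) (h1 : 1 < val e.1) (h2 : ∀ c, 1 < val (ang c e)) :
    ∃ s0 : FractionRing (PowerSeries k) × FractionRing (PowerSeries k), Rch L s0 s := by
  induction L generalizing s e with
  | nil => exact ⟨s, rfl⟩
  | cons l L ih =>
    obtain ⟨hr, hn⟩ := hL l (by simp)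
    obtain ⟨e', w, s', k1, k2, k3, k4⟩ := chains_back_step val hval l hn hr s e hs h1 (h2 l.c)
    obtain ⟨s0, hs0⟩ := ih (fun l' hl' => hL l' (List.mem_cons_of_mem _ hl')) s' e' k2 k3 k4
    exact ⟨s0, s', w, hs0, k1⟩

theorem backward_one (val : Valuation k Γ)
    (hval : ∀ c : ℂ, c ≠ 0 → val (algebraMap ℂ k c) = 1)
    (L : List Letter) (hL : Red L) (c : ℂ) (r : ℝ) (hr : 0 < r) (hf : Fresh c r L)
    (s : FractionRing (PowerSeries k) × FractionRing (PowerSeries k)) (e : k × k)
    (hs : Lifts s e) (h1 : 1 < val e.1)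
    (h2 : ang c e = algebraMap ℂ k (2 * Complex.I * r)) :
    ∃ s0 : FractionRing (PowerSeries k) × FractionRing (PowerSeries k), Rch L s0 s := by
  induction L generalizing s e with
  | nil => exact ⟨s, rfl⟩
  | cons l L ih =>
    obtain ⟨hlr, hln, hlf, hLr⟩ := hL
    have hval1 : val (algebraMap ℂ k (2 * Complex.I * r)) = 1 := by
      apply hval
      have : (r : ℂ) ≠ 0 := by exact_mod_cast hr.ne'
      simp [this]
    by_cases hc : l.c = c
    · obtain ⟨hne, hf'⟩ := hf hc
      obtain ⟨b, hb0, hb⟩ := chains_root r l.r hlr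
      set b' : k := algebraMap ℂ k b with hb'
      have hb'0 : b' ≠ 0 := by
        rw [hb', ne_eq, FaithfulSMul.algebraMap_eq_zero_iff]
        exact hb0
      have hneg : (-b' ^ 2 : k) ≠ 0 := neg_ne_zero.2 (pow_ne_zero 2 hb'0)
      have he0 : e.1 ≠ 0 := by
        intro h
        rw [h, map_zero] at h1
        exact absurd h1 (by simp)
      set v' : k := (-b' ^ 2) ^ (-l.n) * e.1 with hv'
      have hv'0 : v' ≠ 0 := mul_ne_zero (zpow_ne_zero _ hneg) he0
      set e' : k × k := (v', ang c e + algebraMap ℂ k c * v'⁻¹ - algebraMap ℂ k (conj c) * v')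
        with he'
      have hang : ang c e' = ang c e := by
        rw [he']
        simp only [ang]
        ring
      have hstep : Step l b' e' e := by
        refine ⟨hb'0, ?_, ?_, ?_⟩
        · rw [hc, hang, h2, hb', ← map_inv₀, ← map_sub, ← map_mul, hb]
        · show e.1 = (-b' ^ 2) ^ l.n * v'
          rw [hv', ← mul_assoc, ← zpow_add₀ hneg]
          simp
        · rw [hc, hang]
      have hdisc : (ang l.c e) ^ 2 + 4 * (algebraMap ℂ k (l.r : ℂ)) ^ 2 ≠ 0 := by
        rw [hc, h2]
        have h4 : (algebraMap ℂ k (2 * Complex.I * r)) ^ 2 + 4 * (algebraMap ℂ k (l.r : ℂ)) ^ 2 =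
            algebraMap ℂ k ((2 * Complex.I * r) ^ 2 + 4 * (l.r : ℂ) ^ 2) := by
          simp only [map_add, map_mul, map_pow, map_ofNat]
        rw [h4, ne_eq, FaithfulSMul.algebraMap_eq_zero_iff]
        have h5 : (2 * Complex.I * (r : ℂ)) ^ 2 + 4 * (l.r : ℂ) ^ 2 =
            ((4 * ((l.r - r) * (l.r + r)) : ℝ) : ℂ) := by
          push_cast
          have := Complex.I_sq
          linear_combination 4 * (r : ℂ) ^ 2 * this
        rw [h5]
        have h6 : l.r - r ≠ 0 := sub_ne_zero.2 hne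
        have h7 : l.r + r ≠ 0 := by positivity
        exact_mod_cast mul_ne_zero (by norm_num) (mul_ne_zero h6 h7)
      obtain ⟨w, s', m1, m2⟩ := lift_step_back hlr hstep hdisc hs
      have hvv : val e'.1 = val e.1 := by
        show val v' = val e.1
        have h8 : val ((-b' ^ 2) ^ (-l.n)) = 1 := by
          have h9 : (-b' ^ 2 : k) ^ (-l.n) = algebraMap ℂ k ((-b ^ 2) ^ (-l.n)) := by
            rw [map_zpow₀, map_neg, map_pow]
          rw [h9]
          apply hval
          exact zpow_ne_zero _ (neg_ne_zero.2 (pow_ne_zero 2 hb0))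
        rw [hv', map_mul, h8, one_mul]
      obtain ⟨s0, hs0⟩ := ih hLr hf' s' e' m2 (by rw [hvv]; exact h1) (by rw [hang, h2])
      exact ⟨s0, s', w, hs0, m1⟩
    · have h3 : val (ang c e) < val e.1 := by rw [h2, hval1]; exact h1
      have h4 : 1 < val (ang l.c e) := ready_of val hval e c l.c h1 (Or.inr hc) h3
      obtain ⟨e', w, s', k1, k2, k3, k4⟩ := chains_back_step val hval l hln hlr s e hs h1 h4
      obtain ⟨s0, hs0⟩ := backward val hval L (fun l' hl' => red_mem hLr l' hl') s' e' k2 k3 k4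
      exact ⟨s0, s', w, hs0, k1⟩

end Pool.Agent.H6.Ivrii
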