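import Mathlib

/-!
Ivrii's conjecture for circular and straight arcs (MP_ac23f1_an): algebraic definitions.
An oriented line is a pair `(v, q)`, `v` the direction (unit complex number), `q = ξ / v - conj ξ * v` for any point `ξ` of the line.
-/

set_option autoImplicit false

namespace Pool.Agent.H6.Ivrii

open ComplexConjugate

/-- a letter: `n`-fold reflection in the circle with centre `c` and radius `r` -/
structure Letter where
  /-- the centre -/
  c : ℂ
  /-- the radius -/
  r : ℝ
  /-- the exponent -/
  n : ℤ

section field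

variable {K : Type} [Field K] [Algebra ℂ K]

/-- `2 i` times the angular momentum of the line `s = (v, q)` about the point `c` -/
noncomputable def ang (c : ℂ) (s : K × K) : K :=
  s.2 - algebraMap ℂ K c * s.1⁻¹ + algebraMap ℂ K (conj c) * s.1

/-- the letter `l` (with root `w`) takes the line `s` to the line `s'` -/
def Step (l : Letter) (w : K) (s s' : K × K) : Prop :=
  w ≠ 0 ∧ algebraMap ℂ K (l.r : ℂ) * (w - w⁻¹) = ang l.c s ∧
    s'.1 = (-w ^ 2) ^ l.n * s.1 ∧ ang l.c s' = ang l.c s

/-- the word `L` (last letter first) takes the line `s0` to the line `s` -/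
def Rch : List Letter → K × K → K × K → Prop
  | [], s0, s => s = s0
  | l :: L, s0, s => ∃ s' : K × K, ∃ w : K, Rch L s0 s' ∧ Step l w s' s

/-- a generic line -/
def Gen (s : K × K) : Prop := AlgebraicIndependent ℂ ![s.1, s.2]

/-- lines with a marked point: `(v, q, σ)`, `σ` = position of the point on the line;
`sig c` is the position relative to the foot of the perpendicular from `c` -/
noncomputable def sig (c : ℂ) (s : K × K × K) : K :=
  s.2.2 - (algebraMap ℂ K c * s.1⁻¹ + algebraMap ℂ K (conj c) * s.1) / 2

/-- as `Step`, for lines with a marked point -/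
def Step3 (l : Letter) (w : K) (s s' : K × K × K) : Prop :=
  Step l w (s.1, s.2.1) (s'.1, s'.2.1) ∧
    sig l.c s' = sig l.c s - (l.n : K) * algebraMap ℂ K (l.r : ℂ) * (w + w⁻¹)

/-- as `Rch`, for lines with a marked point -/
def Rch3 : List Letter → K × K × K → K × K × K → Prop
  | [], s0, s => s = s0
  | l :: L, s0, s => ∃ s' : K × K × K, ∃ w : K, Rch3 L s0 s' ∧ Step3 l w s' s

end field

/-- the radius `r` does not occur in the initial run of letters with centre `c` -/
def Fresh (c : ℂ) (r : ℝ) : List Letter → Prop
  | [] => True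
  | l :: L => l.c = c → (l.r ≠ r ∧ Fresh c r L)

/-- reduced words -/
def Red : List Letter → Prop
  | [] => True
  | l :: L => 0 < l.r ∧ l.n ≠ 0 ∧ Fresh l.c l.r L ∧ Red L

theorem Rch3.toRch {K : Type} [Field K] [Algebra ℂ K] {L : List Letter} {s0 s : K × K × K}
    (h : Rch3 L s0 s) : Rch L (s0.1, s0.2.1) (s.1, s.2.1) := by
  induction L generalizing s with
  | nil =>
    have h' : s = s0 := h
    subst h'
    exact rfl
  | cons l L ih =>
    obtain ⟨s', w, h1, h2⟩ := h
    exact ⟨(s'.1, s'.2.1), w, ih h1, h2.1⟩

end Pool.Agent.H6.Ivrii
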