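import Pool.Agent.H6.Ivrii.Defs

/-!
JOB IV-1. Genericity passes through a letter, in both directions.
Proof: by hypothesis `s'.1`, `s'.2` are algebraic over `ℂ(s.1, s.2)`: `w` is algebraic (root of `r (w^2 - 1) = ang c s * w`, `r ≠ 0`),
so `s'.1 = (-w^2)^n * s.1` is, and `s'.2 = ang c s + c / s'.1 - conj c * s'.1` is. Symmetrically `s` is algebraic over `ℂ(s')`
(`Step l w s s'` gives `Step {l with n := -l.n} w s' s`). Two elements over which two algebraically independent
elements are algebraic are algebraically independent: transcendence degree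
(`Mathlib.RingTheory.AlgebraicIndependent.TranscendenceBasis`, e.g. the matroid or `isTranscendenceBasis_of_le_trdeg_of_finite`).
-/

set_option autoImplicit false

namespace Pool.Agent.H6.Ivrii

open ComplexConjugate

variable {K : Type} [Field K] [Algebra ℂ K]

theorem Step.symm {l : Letter} {w : K} {s s' : K × K} (h : Step l w s s') :
    Step { l with n := -l.n } w s' s := by
  obtain ⟨h1, h2, h3, h4⟩ := h
  have hw : (-w ^ 2 : K) ≠ 0 := neg_ne_zero.mpr (pow_ne_zero 2 h1)
  refine ⟨h1, ?_, ?_, ?_⟩
  · simp only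
    rw [h2, h4]
  · simp only
    rw [h3, ← mul_assoc, ← zpow_add₀ hw]
    simp
  · simp only
    rw [h4]

/-- two elements over which two algebraically independent elements are algebraic -/
theorem genT_aux {a b a' b' : K} (hg : AlgebraicIndependent ℂ ![a, b])
    (ha : IsAlgebraic (Algebra.adjoin ℂ ({a', b'} : Set K)) a)
    (hb : IsAlgebraic (Algebra.adjoin ℂ ({a', b'} : Set K)) b) :
    AlgebraicIndependent ℂ ![a', b'] := by
  set M := AlgebraicIndependent.matroid ℂ K with hM
  have hab : a ≠ b := by
    intro h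
    have h1 : ![a, b] 0 = ![a, b] 1 := by simpa using h
    have h2 := hg.injective h1
    simp at h2
  have hr : Set.range ![a, b] = {a, b} := by
    ext x
    simp only [Set.mem_range, Fin.exists_fin_two, Matrix.cons_val_zero, Matrix.cons_val_one,
      Set.mem_insert_iff, Set.mem_singleton_iff]
    constructor
    · rintro (h | h)
      · exact Or.inl h.symm
      · exact Or.inr h.symm
    · rintro (h | h)
      · exact Or.inl h.symm
      · exact Or.inr h.symm
  have hr' : Set.range ![a', b'] = {a', b'} := by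
    ext x
    simp only [Set.mem_range, Fin.exists_fin_two, Matrix.cons_val_zero, Matrix.cons_val_one,
      Set.mem_insert_iff, Set.mem_singleton_iff]
    constructor
    · rintro (h | h)
      · exact Or.inl h.symm
      · exact Or.inr h.symm
    · rintro (h | h)
      · exact Or.inl h.symm
      · exact Or.inr h.symm
  have hind : M.Indep {a, b} := by
    rw [hM, AlgebraicIndependent.matroid_indep_iff]
    have h1 := hg.coe_range
    rw [hr] at h1
    exact h1
  have hcl : ({a, b} : Set K) ⊆ M.closure {a', b'} := by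
    rw [hM, AlgebraicIndependent.matroid_closure_eq]
    rintro x (rfl | rfl)
    · exact ha
    · exact hb
  have h1 : (2 : ℕ∞) ≤ M.eRk {a', b'} := by
    rw [← M.eRk_closure_eq, ← Set.encard_pair hab]
    exact hind.encard_le_eRk_of_subset hcl
  obtain ⟨I, hIs, hI, hIc⟩ := Matroid.le_eRk_iff.1 h1
  have hne : a' ≠ b' := by
    rintro rfl
    rw [Set.pair_eq_singleton] at hIs
    have h2 := Set.encard_mono hIs
    rw [hIc, Set.encard_singleton] at h2
    exact absurd h2 (by norm_num)
  have hIeq : I = {a', b'} := by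
    have hfin : ({a', b'} : Set K).Finite := Set.toFinite _
    apply hfin.eq_of_subset_of_encard_le' hIs
    rw [hIc, Set.encard_pair hne]
  rw [hIeq, hM, AlgebraicIndependent.matroid_indep_iff] at hI
  have hinj : Function.Injective ![a', b'] := by
    intro i j hij
    fin_cases i <;> fin_cases j
    · rfl
    · exact absurd (by simpa using hij) hne
    · exact absurd (by simpa using hij.symm) hne
    · rfl
  apply AlgebraicIndependent.of_subtype_range hinj
  rw [hr']
  exact hI

theorem gen_step {l : Letter} (hr : 0 < l.r) {w : K} {s s' : K × K} (h : Step l w s s')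
    (hg : Gen s) : Gen s' := by
  obtain ⟨h1, h2, h3, h4⟩ := h
  have hw : (-w ^ 2 : K) ≠ 0 := neg_ne_zero.mpr (pow_ne_zero 2 h1)
  set A := Algebra.adjoin ℂ ({s'.1, s'.2} : Set K) with hA
  have hx : IsAlgebraic A s'.1 :=
    isAlgebraic_algebraMap (⟨s'.1, Algebra.subset_adjoin (Or.inl rfl)⟩ : A)
  have hy : IsAlgebraic A s'.2 :=
    isAlgebraic_algebraMap (⟨s'.2, Algebra.subset_adjoin (Or.inr rfl)⟩ : A)
  have hc : ∀ c : ℂ, IsAlgebraic A (algebraMap ℂ K c) := fun c =>
    isAlgebraic_algebraMap (algebraMap ℂ A c)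
  have hang : IsAlgebraic A (ang l.c s') := by
    unfold ang
    exact (hy.sub ((hc _).mul hx.inv)).add ((hc _).mul hx)
  have hr0 : algebraMap ℂ K (l.r : ℂ) ≠ 0 := by
    rw [Ne, FaithfulSMul.algebraMap_eq_zero_iff, Complex.ofReal_eq_zero]
    exact hr.ne'
  set g := ang l.c s' / algebraMap ℂ K (l.r : ℂ) with hgdef
  have hgA : IsAlgebraic A g := by
    rw [hgdef, div_eq_mul_inv]
    exact hang.mul (hc _).inv
  have hwg : w ^ 2 - g * w - 1 = 0 := by
    have e1 : w - w⁻¹ = g := by
      rw [hgdef, h4, ← h2]
      field_simp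
    rw [← e1]
    field_simp
    ring
  -- `w` is algebraic
  have hwA : IsAlgebraic A w := by
    set E := Subalgebra.algebraicClosure A K with hE
    set g' : E := ⟨g, hgA⟩ with hg'
    have hint : IsIntegral E w := by
      refine ⟨(Polynomial.X ^ 2 - Polynomial.C g' * Polynomial.X - 1 : Polynomial E), ?_, ?_⟩
      · monicity!
      · simp only [Polynomial.eval₂_sub, Polynomial.eval₂_pow, Polynomial.eval₂_X,
          Polynomial.eval₂_mul, Polynomial.eval₂_C, Polynomial.eval₂_one]
        exact hwg
    have halg : IsAlgebraic E w := hint.isAlgebraic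
    exact halg.restrictScalars A
  have hwz : ∀ n : ℤ, IsAlgebraic A ((-w ^ 2 : K) ^ n) := by
    intro n
    have e1 : IsAlgebraic A (-w ^ 2 : K) := (hwA.pow 2).neg
    cases n with
    | ofNat n =>
      rw [Int.ofNat_eq_natCast, zpow_natCast]
      exact e1.pow n
    | negSucc n =>
      rw [zpow_negSucc]
      exact (e1.pow _).inv
  have hs1 : s.1 = (-w ^ 2) ^ (-l.n) * s'.1 := by
    rw [h3, ← mul_assoc, ← zpow_add₀ hw]
    simp
  have hs1A : IsAlgebraic A s.1 := by
    rw [hs1]
    exact (hwz _).mul hx
  have hs2 : s.2 = ang l.c s' + algebraMap ℂ K l.c * s.1⁻¹ - algebraMap ℂ K (conj l.c) * s.1 := by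
    rw [h4]
    unfold ang
    ring
  have hs2A : IsAlgebraic A s.2 := by
    rw [hs2]
    exact (hang.add ((hc _).mul hs1A.inv)).sub ((hc _).mul hs1A)
  exact genT_aux hg hs1A hs2A

theorem gen_of_rch {L : List Letter} (hL : ∀ l ∈ L, 0 < l.r) {s0 s : K × K}
    (h : Rch L s0 s) (hg : Gen s) : Gen s0 := by
  induction L generalizing s with
  | nil =>
    have h' : s = s0 := h
    rwa [← h']
  | cons l L ih =>
    obtain ⟨s', w, h1, h2⟩ := h
    exact ih (fun l' hl' => hL l' (List.mem_cons_of_mem _ hl')) h1
      (gen_step (l := { l with n := -l.n }) (by simpa using hL l (by simp)) h2.symm hg)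

end Pool.Agent.H6.Ivrii
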