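import Pool.Agent.H6.Ivrii.Defs

/-!
Orbits in the plane `ℂ`: with flat and circular mirrors (`PO`), unfolded (`UC`), and unfolding (JOB IV-6).

`unfold`: induction on `L`. `[]`: `L' = []`, `g = id`, `T = 0`. `m :: L`: the part of the orbit up to the last reflection gives
`UC L' P0 V0 T' Q' W'` with `Q = g Q'`, `W = g.dir W'`; the flight gives `UC L' P0 V0 (T' + t) (Q' + t W') W'` (`UC.flow`) and
`P = Q + t W = g (Q' + t W')`. Flat mirror `(ν, h)`: the reflection `R z = - ν^2 conj z + 2 h ν` fixes `P`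
(because `conj ν P + ν conj P = 2 h`, `ν conj ν = 1`), new isometry `R ∘ g`, same word. Circular mirror `(c, r)`: new letter with centre
`g⁻¹ c`, same isometry: `V'' := - ((P' - g⁻¹ c) / r)^2 conj W'`, `V = g.dir V''`. One can carry the fact `‖V0‖ = 1 → ‖V‖ = 1` along.
-/

set_option autoImplicit false

namespace Pool.Agent.H6.Ivrii

open ComplexConjugate

/-- a mirror: a line `{z : Re (conj ν z) = h}` or a circle with centre `c` and radius `r` -/
inductive Mirror : Type
  | flat (ν : ℂ) (h : ℝ) : Mirror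
  | circ (c : ℂ) (r : ℝ) : Mirror

/-- admissible mirrors -/
def Mirror.ok : Mirror → Prop
  | Mirror.flat ν _ => ‖ν‖ = 1
  | Mirror.circ _ r => 0 < r

/-- at the point `P` of the mirror the direction `W` is reflected to `V` -/
def Mirror.refl : Mirror → ℂ → ℂ → ℂ → Prop
  | Mirror.flat ν h, P, W, V => (conj ν * P).re = h ∧ V = -ν ^ 2 * conj W
  | Mirror.circ c r, P, W, V => ‖P - c‖ = r ∧ V = -((P - c) / r) ^ 2 * conj W

/-- an orbit `(P0, V0) → (P, V)` of length `T` with reflections at the mirrors `L` (last mirror first), ending with a reflection -/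
def PO : List Mirror → ℂ → ℂ → ℝ → ℂ → ℂ → Prop
  | [], P0, V0, T, P, V => P = P0 ∧ V = V0 ∧ T = 0
  | m :: L, P0, V0, T, P, V => ∃ (T' t : ℝ) (Q W : ℂ), PO L P0 V0 T' Q W ∧
      P = Q + t * W ∧ T = T' + t ∧ m.refl P W V

/-- an unfolded orbit: reflections only at circles `(centre, radius)`, with a final flight -/
def UC : List (ℂ × ℝ) → ℂ → ℂ → ℝ → ℂ → ℂ → Prop
  | [], P0, V0, T, P, V => P = P0 + T * V0 ∧ V = V0
  | p :: L, P0, V0, T, P, V => ∃ (T' t : ℝ) (Q W : ℂ), UC L P0 V0 T' Q W ∧ ‖Q - p.1‖ = p.2 ∧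
      V = -((Q - p.1) / p.2) ^ 2 * conj W ∧ P = Q + t * V ∧ T = T' + t

/-- an isometry of the plane -/
structure Iso where
  /-- orientation reversing? -/
  rev : Bool
  /-- linear part -/
  a : ℂ
  /-- translation part -/
  b : ℂ
  ha : ‖a‖ = 1

/-- action on directions -/
noncomputable def Iso.dir (g : Iso) (z : ℂ) : ℂ := g.a * (if g.rev then conj z else z)

/-- action on points -/
noncomputable def Iso.pt (g : Iso) (z : ℂ) : ℂ := g.dir z + g.b

theorem UC.flow {L : List (ℂ × ℝ)} {P0 V0 : ℂ} {T : ℝ} {P V : ℂ} (h : UC L P0 V0 T P V)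
    (t : ℝ) : UC L P0 V0 (T + t) (P + t * V) V := by
  cases L with
  | nil =>
    obtain ⟨h1, h2⟩ := h
    refine ⟨?_, h2⟩
    rw [h1, h2]
    push_cast
    ring
  | cons p L =>
    obtain ⟨T', u, Q, W, h1, h2, h3, h4, h5⟩ := h
    refine ⟨T', u + t, Q, W, h1, h2, h3, ?_, ?_⟩
    · rw [h4]
      push_cast
      ring
    · rw [h5]
      ring

theorem Iso.a_mul_conj (g : Iso) : g.a * conj g.a = 1 := by
  rw [Complex.mul_conj, Complex.normSq_eq_norm_sq, g.ha]
  norm_num

theorem Iso.dir_sub (g : Iso) (x y : ℂ) : g.dir (x - y) = g.dir x - g.dir y := by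
  unfold Iso.dir
  cases g.rev <;> simp <;> ring

theorem Iso.dir_add (g : Iso) (x y : ℂ) : g.dir (x + y) = g.dir x + g.dir y := by
  unfold Iso.dir
  cases g.rev <;> simp <;> ring

theorem Iso.dir_real_mul (g : Iso) (t : ℝ) (x : ℂ) : g.dir (t * x) = t * g.dir x := by
  unfold Iso.dir
  cases g.rev <;> simp <;> ring

theorem Iso.norm_dir (g : Iso) (x : ℂ) : ‖g.dir x‖ = ‖x‖ := by
  unfold Iso.dir
  rw [norm_mul, g.ha, one_mul]
  cases g.rev <;> simp

theorem Iso.pt_sub (g : Iso) (x y : ℂ) : g.pt x - g.pt y = g.dir (x - y) := by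
  unfold Iso.pt
  rw [Iso.dir_sub]
  ring

theorem Iso.pt_flow (g : Iso) (x w : ℂ) (t : ℝ) : g.pt (x + t * w) = g.pt x + t * g.dir w := by
  unfold Iso.pt
  rw [Iso.dir_add, Iso.dir_real_mul]
  ring

theorem Iso.exists_pt (g : Iso) (c : ℂ) : ∃ c' : ℂ, g.pt c' = c := by
  have h := g.a_mul_conj
  refine ⟨if g.rev then conj (conj g.a * (c - g.b)) else conj g.a * (c - g.b), ?_⟩
  unfold Iso.pt Iso.dir
  cases g.rev
  · simp only [Bool.false_eq_true, if_false]
    rw [← mul_assoc, h]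
    ring
  · simp only [if_true, Complex.conj_conj]
    rw [← mul_assoc, h]
    ring

theorem Iso.dir_refl (g : Iso) (z W : ℂ) (r : ℝ) :
    g.dir (-(z / r) ^ 2 * conj W) = -(g.dir z / r) ^ 2 * conj (g.dir W) := by
  have h := g.a_mul_conj
  unfold Iso.dir
  cases g.rev
  · simp only [Bool.false_eq_true, if_false, map_mul]
    calc g.a * (-(z / r) ^ 2 * conj W) = (g.a * (g.a * conj g.a)) * (-(z / r) ^ 2 * conj W) := by
          rw [h, mul_one]
      _ = -(g.a * z / r) ^ 2 * (conj g.a * conj W) := by ring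
  · simp only [if_true, map_mul, map_neg, map_pow, map_div₀, Complex.conj_conj,
      Complex.conj_ofReal]
    calc g.a * (-(conj z / r) ^ 2 * W) = (g.a * (g.a * conj g.a)) * (-(conj z / r) ^ 2 * W) := by
          rw [h, mul_one]
      _ = -(g.a * conj z / r) ^ 2 * (conj g.a * W) := by ring

/-- an isometry followed by the reflection in the line `(ν, h)` -/
noncomputable def Iso.flip (g : Iso) (ν : ℂ) (h : ℝ) (hν : ‖ν‖ = 1) : Iso where
  rev := !g.rev
  a := -ν ^ 2 * conj g.a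
  b := -ν ^ 2 * conj g.b + 2 * h * ν
  ha := by
    rw [norm_mul, norm_neg, norm_pow, hν, Complex.norm_conj, g.ha]
    norm_num

theorem Iso.flip_dir (g : Iso) (ν : ℂ) (h : ℝ) (hν : ‖ν‖ = 1) (z : ℂ) :
    (g.flip ν h hν).dir z = -ν ^ 2 * conj (g.dir z) := by
  unfold Iso.dir Iso.flip
  cases g.rev <;> simp <;> ring

theorem Iso.flip_pt (g : Iso) (ν : ℂ) (h : ℝ) (hν : ‖ν‖ = 1) (z : ℂ) :
    (g.flip ν h hν).pt z = -ν ^ 2 * conj (g.pt z) + 2 * h * ν := by
  unfold Iso.pt
  rw [Iso.flip_dir]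
  simp only [Iso.flip, map_add]
  ring

theorem refl_fix {ν P : ℂ} {h : ℝ} (hν : ‖ν‖ = 1) (hP : (conj ν * P).re = h) :
    -ν ^ 2 * conj P + 2 * h * ν = P := by
  have h1 : ν * conj ν = 1 := by
    rw [Complex.mul_conj, Complex.normSq_eq_norm_sq, hν]
    norm_num
  have h2 : (2 : ℂ) * h = conj ν * P + ν * conj P := by
    have h3 := Complex.add_conj (conj ν * P)
    rw [hP] at h3
    rw [map_mul, Complex.conj_conj] at h3
    rw [h3]
    push_cast
    ring
  rw [h2]
  calc -ν ^ 2 * conj P + (conj ν * P + ν * conj P) * ν = (ν * conj ν) * P := by ring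
    _ = P := by rw [h1, one_mul]

theorem unfold (L : List Mirror) (hL : ∀ m ∈ L, m.ok) : ∃ (L' : List (ℂ × ℝ)) (g : Iso),
    (∀ p ∈ L', 0 < p.2) ∧ ∀ (P0 V0 : ℂ) (T : ℝ) (P V : ℂ), ‖V0‖ = 1 → PO L P0 V0 T P V →
      ∃ P' V' : ℂ, UC L' P0 V0 T P' V' ∧ P = g.pt P' ∧ V = g.dir V' := by
  induction L with
  | nil =>
    refine ⟨[], ⟨false, 1, 0, by simp⟩, ?_, ?_⟩
    · intro p hp
      simp at hp
    · intro P0 V0 T P V _ hPO
      obtain ⟨h1, h2, h3⟩ := hPO
      refine ⟨P, V, ⟨?_, h2⟩, ?_, ?_⟩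
      · rw [h1, h3]
        simp
      · simp [Iso.pt, Iso.dir]
      · simp [Iso.dir]
  | cons m L ih =>
    obtain ⟨L', g, hpos, hg⟩ := ih (fun x hx => hL x (List.mem_cons_of_mem _ hx))
    have hm : m.ok := hL m List.mem_cons_self
    cases m with
    | flat ν h =>
      have hν : ‖ν‖ = 1 := hm
      refine ⟨L', g.flip ν h hν, hpos, ?_⟩
      intro P0 V0 T P V hV0 hPO
      obtain ⟨T', t, Q, W, hQ, hP, hT, hre, hV⟩ := hPO
      obtain ⟨Q', W', hUC, hQ', hW'⟩ := hg P0 V0 T' Q W hV0 hQ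
      have hPg : P = g.pt (Q' + t * W') := by
        rw [Iso.pt_flow, ← hQ', ← hW', hP]
      refine ⟨Q' + t * W', W', ?_, ?_, ?_⟩
      · rw [hT]
        exact hUC.flow t
      · rw [Iso.flip_pt, ← hPg]
        exact (refl_fix hν hre).symm
      · rw [Iso.flip_dir, ← hW']
        exact hV
    | circ c r =>
      have hr : 0 < r := hm
      obtain ⟨c', hc'⟩ := g.exists_pt c
      refine ⟨(c', r) :: L', g, ?_, ?_⟩
      · intro p hp
        rcases List.mem_cons.mp hp with hp | hp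
        · rw [hp]
          exact hr
        · exact hpos p hp
      · intro P0 V0 T P V hV0 hPO
        obtain ⟨T', t, Q, W, hQ, hP, hT, hre, hV⟩ := hPO
        obtain ⟨Q', W', hUC, hQ', hW'⟩ := hg P0 V0 T' Q W hV0 hQ
        have hPg : P = g.pt (Q' + t * W') := by
          rw [Iso.pt_flow, ← hQ', ← hW', hP]
        have hsub : P - c = g.dir (Q' + t * W' - c') := by
          rw [← Iso.pt_sub, ← hPg, hc']
        refine ⟨Q' + t * W', -((Q' + t * W' - c') / r) ^ 2 * conj W', ?_, hPg, ?_⟩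
        · refine ⟨T' + t, 0, Q' + t * W', W', hUC.flow t, ?_, rfl, ?_, ?_⟩
          · show ‖Q' + t * W' - c'‖ = r
            rw [← Iso.norm_dir g, ← hsub]
            exact hre
          · simp
          · rw [hT]
            ring
        · rw [Iso.dir_refl, ← hsub, ← hW']
          exact hV

/-- directions keep length one -/
theorem UC.norm {L : List (ℂ × ℝ)} (hL : ∀ p ∈ L, 0 < p.2) {P0 V0 : ℂ} {T : ℝ} {P V : ℂ}
    (h : UC L P0 V0 T P V) (hV : ‖V0‖ = 1) : ‖V‖ = 1 := by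
  induction L generalizing T P V with
  | nil =>
    obtain ⟨_, h2⟩ := h
    rw [h2]
    exact hV
  | cons p L ih =>
    obtain ⟨T', u, Q, W, h1, h2, h3, h4, h5⟩ := h
    have hW : ‖W‖ = 1 := ih (fun x hx => hL x (List.mem_cons_of_mem _ hx)) h1
    have hp : 0 < p.2 := hL p List.mem_cons_self
    rw [h3, norm_mul, norm_neg, norm_pow, norm_div, h2, Complex.norm_real, Complex.norm_conj, hW,
      Real.norm_eq_abs, abs_of_pos hp, div_self hp.ne']
    norm_num

end Pool.Agent.H6.Ivrii
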