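import Pool.Agent.H6.Ivrii.Defs

/-!
JOB IV-2. The valued field: `k := AlgebraicClosure (RatFunc ℂ)` (or any algebraically closed extension of `ℂ` with a transcendental `x`),
valuation subring from `Subring.exists_le_valuationSubring_of_isIntegrallyClosedIn` (file `Mathlib/RingTheory/Valuation/LocalSubring.lean`; see also
`Subring.eq_iInf_of_isIntegrallyClosedIn`) applied to the image of `ℂ` in `k` (integrally closed in `k`, because `ℂ` is algebraically closed) and the element `x`
(transcendental): a valuation subring `O` containing the image of `ℂ` and not `x`; `val := O.valuation`. For `c ≠ 0` both `c` and `c⁻¹` are in `O`, so `val c = 1`.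
-/

set_option autoImplicit false

namespace Pool.Agent.H6.Ivrii

theorem exists_val_range {k : Type} [Field k] [Algebra ℂ k] :
    IsIntegrallyClosedIn (⊥ : Subalgebra ℂ k).toSubring k := by
  rw [Subring.isIntegrallyClosedIn_iff]
  intro y hy
  have hy1 : IsIntegral (⊥ : Subalgebra ℂ k) y := hy
  have : Algebra.IsIntegral ℂ (⊥ : Subalgebra ℂ k) := by
    constructor
    rintro ⟨z, hz⟩
    obtain ⟨c, rfl⟩ := Algebra.mem_bot.1 hz
    exact isIntegral_algebraMap (A := (⊥ : Subalgebra ℂ k)) (x := c)
  have hy2 : IsIntegral ℂ y := isIntegral_trans y hy1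
  have hdeg := IsAlgClosed.degree_eq_one_of_irreducible ℂ (minpoly.irreducible hy2)
  obtain ⟨c, hc⟩ := minpoly.mem_range_of_degree_eq_one ℂ y hdeg
  exact Algebra.mem_bot.2 ⟨c, hc⟩

theorem exists_val : ∃ (k : Type) (_ : Field k) (_ : Algebra ℂ k) (_ : IsAlgClosed k) (Γ : Type)
    (_ : LinearOrderedCommGroupWithZero Γ) (val : Valuation k Γ) (x : k),
    (∀ c : ℂ, c ≠ 0 → val (algebraMap ℂ k c) = 1) ∧ 1 < val x ∧ Transcendental ℂ x := by
  set k : Type := AlgebraicClosure (RatFunc ℂ) with hk
  set x : k := algebraMap (RatFunc ℂ) k RatFunc.X with hx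
  have hxt : Transcendental ℂ x :=
    (transcendental_algebraMap_iff (algebraMap (RatFunc ℂ) k).injective).2 RatFunc.transcendental_X
  have hxR : x ∉ (⊥ : Subalgebra ℂ k).toSubring := by
    intro h
    have h1 : x ∈ (⊥ : Subalgebra ℂ k) := h
    obtain ⟨c, hc⟩ := Algebra.mem_bot.1 h1
    exact hxt (hc ▸ isAlgebraic_algebraMap c)
  have := exists_val_range (k := k)
  obtain ⟨V, hV, hxV⟩ := Subring.exists_le_valuationSubring_of_isIntegrallyClosedIn hxR
  have hmem : ∀ c : ℂ, algebraMap ℂ k c ∈ V := fun c =>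
    hV (show algebraMap ℂ k c ∈ (⊥ : Subalgebra ℂ k) from Algebra.mem_bot.2 ⟨c, rfl⟩)
  refine ⟨k, inferInstance, inferInstance, inferInstance, V.ValueGroup, inferInstance,
    V.valuation, x, ?_, ?_, hxt⟩
  · intro c hc
    have h1 := (V.valuation_le_one_iff _).2 (hmem c)
    have h2 := (V.valuation_le_one_iff _).2 (hmem c⁻¹)
    have h3 : V.valuation (algebraMap ℂ k c) * V.valuation (algebraMap ℂ k c⁻¹) = 1 := by
      rw [← map_mul, ← map_mul, mul_inv_cancel₀ hc, map_one, map_one]
    refine le_antisymm h1 ?_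
    rw [← h3]
    exact mul_le_of_le_one_right' h2
  · exact not_le.1 fun h => hxV ((V.valuation_le_one_iff _).1 h)

end Pool.Agent.H6.Ivrii
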