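import Pool.Agent.H6.Ivrii.Chains
import Pool.Agent.H6.Ivrii.Hens
import Pool.Agent.H6.Ivrii.ValF

/-!
Universality and freeness.
-/

set_option autoImplicit false

namespace Pool.Agent.H6.Ivrii

open ComplexConjugate

theorem Red.forall_mem {L : List Letter} (hL : Red L) : ∀ l ∈ L, 0 < l.r ∧ l.n ≠ 0 := by
  induction L with
  | nil => intro l hl; simp at hl
  | cons l L ih =>
    obtain ⟨h1, h2, h3, h4⟩ := hL
    intro l' hl'
    rcases List.mem_cons.mp hl' with h | h
    · subst h; exact ⟨h1, h2⟩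
    · exact ih h4 l' h

theorem algMap_frac {k : Type} [Field k] [Algebra ℂ k] (z : ℂ) :
    algebraMap ℂ (FractionRing (PowerSeries k)) z =
      algebraMap (PowerSeries k) (FractionRing (PowerSeries k))
        (PowerSeries.C (algebraMap ℂ k z)) := by
  rw [IsScalarTower.algebraMap_apply ℂ (PowerSeries k) (FractionRing (PowerSeries k)),
    PowerSeries.algebraMap_apply]

theorem map_ang {E K : Type} [Field E] [Algebra ℂ E] [Field K] [Algebra ℂ K] (ψ : E →ₐ[ℂ] K)
    (c : ℂ) (s : E × E) : ψ (ang c s) = ang c (ψ s.1, ψ s.2) := by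
  simp only [ang, map_add, map_sub, map_mul, map_inv₀, AlgHom.commutes]

theorem Step.map {E K : Type} [Field E] [Algebra ℂ E] [Field K] [Algebra ℂ K] (ψ : E →ₐ[ℂ] K)
    {l : Letter} {w : E} {s s' : E × E} (h : Step l w s s') :
    Step l (ψ w) (ψ s.1, ψ s.2) (ψ s'.1, ψ s'.2) := by
  obtain ⟨h1, h2, h3, h4⟩ := h
  refine ⟨?_, ?_, ?_, ?_⟩
  · rwa [ne_eq, map_eq_zero]
  · rw [← map_ang, ← h2, map_mul, map_sub, map_inv₀, AlgHom.commutes]
  · simp only [h3, map_mul, map_zpow₀, map_neg, map_pow]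
  · rw [← map_ang, ← map_ang, h4]

theorem Rch.map {E K : Type} [Field E] [Algebra ℂ E] [Field K] [Algebra ℂ K] (ψ : E →ₐ[ℂ] K)
    {L : List Letter} {s0 s : E × E} (h : Rch L s0 s) :
    Rch L (ψ s0.1, ψ s0.2) (ψ s.1, ψ s.2) := by
  induction L generalizing s with
  | nil =>
    have h' : s = s0 := h
    subst h'
    exact rfl
  | cons l L ih =>
    obtain ⟨s', w, h1, h2⟩ := h
    exact ⟨(ψ s'.1, ψ s'.2), ψ w, ih h1, h2.map ψ⟩

theorem Gen.map {E K : Type} [Field E] [Algebra ℂ E] [Field K] [Algebra ℂ K] (ψ : E →ₐ[ℂ] K)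
    {s : E × E} (h : Gen s) : Gen (ψ s.1, ψ s.2) := by
  have h' := AlgebraicIndependent.map' h (f := ψ) ψ.toRingHom.injective
  unfold Gen
  convert h' using 1
  ext i
  fin_cases i <;> rfl

/-- for every reduced word there is a generic chain ending at the tangent lines of the next circle, transversally -/
theorem tangent_chain (L : List Letter) (hL : Red L) (c : ℂ) (r : ℝ) (hr : 0 < r)
    (hf : Fresh c r L) :
    ∃ (K : Type) (_ : Field K) (_ : Algebra ℂ K) (s0 s : K × K), Gen s0 ∧ Rch L s0 s ∧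
      ¬ ∃ w : K, w ≠ 0 ∧ algebraMap ℂ K (r : ℂ) * (w - w⁻¹) = ang c s := by
  obtain ⟨k, _, _, _, Γ, _, val, x, hval, hx1, hx2⟩ := exists_val
  have hx0 : x ≠ 0 := by
    intro h
    rw [h, map_zero] at hx1
    exact absurd hx1 (by simp)
  set y : k := algebraMap ℂ k (2 * Complex.I * r) + algebraMap ℂ k c * x⁻¹ -
    algebraMap ℂ k (conj c) * x with hy
  set s : FractionRing (PowerSeries k) × FractionRing (PowerSeries k) :=
    (algebraMap (PowerSeries k) (FractionRing (PowerSeries k)) (PowerSeries.C x),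
      algebraMap (PowerSeries k) (FractionRing (PowerSeries k))
        (PowerSeries.C y + PowerSeries.X)) with hs
  have hlift : Lifts s (x, y) := ⟨PowerSeries.C x, PowerSeries.C y + PowerSeries.X, rfl, rfl,
    by simp, by simp, hx0⟩
  have hang : ang c ((x, y) : k × k) = algebraMap ℂ k (2 * Complex.I * r) := by
    simp only [ang, hy]
    ring
  obtain ⟨s0, hs0⟩ := backward_one val hval L hL c r hr hf s (x, y) hlift hx1 hang
  have hgen : Gen s := gen_pair hx2 y
  refine ⟨FractionRing (PowerSeries k), inferInstance, inferInstance, s0, s,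
    gen_of_rch (fun l hl => (hL.forall_mem l hl).1) hs0 hgen, hs0, ?_⟩
  rintro ⟨w, hw0, hw⟩
  refine no_root (k := k) hr ⟨w, hw0, ?_⟩
  rw [hw]
  set ι : k →+* FractionRing (PowerSeries k) :=
    (algebraMap (PowerSeries k) (FractionRing (PowerSeries k))).comp PowerSeries.C with hι
  have hιa : ∀ z : ℂ, algebraMap ℂ (FractionRing (PowerSeries k)) z = ι (algebraMap ℂ k z) :=
    fun z => algMap_frac z
  have h1 : s.1 = ι x := rfl
  have h2 : s.2 = ι y +
      algebraMap (PowerSeries k) (FractionRing (PowerSeries k)) PowerSeries.X := by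
    rw [hs]
    exact map_add _ _ _
  simp only [ang]
  rw [h1, h2, hιa, hιa, hιa, hy]
  simp only [map_add, map_sub, map_mul, map_inv₀]
  ring

/-- the universal generic chain -/
theorem universal (L : List Letter) (hL : Red L) :
    ∃ (E : Type) (_ : Field E) (_ : Algebra ℂ E) (s0 s : E × E), Gen s0 ∧ Rch L s0 s ∧
      ∀ (K : Type) [Field K] [Algebra ℂ K] (t0 t : K × K), Gen t0 → Rch L t0 t →
        ∃ ψ : E →ₐ[ℂ] K, ψ s0.1 = t0.1 ∧ ψ s0.2 = t0.2 ∧ ψ s.1 = t.1 ∧ ψ s.2 = t.2 := by
  induction L with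
  | nil =>
    refine ⟨FractionRing (MvPolynomial (Fin 2) ℂ), inferInstance, inferInstance,
      (algebraMap (MvPolynomial (Fin 2) ℂ) _ (MvPolynomial.X 0),
        algebraMap (MvPolynomial (Fin 2) ℂ) _ (MvPolynomial.X 1)),
      (algebraMap (MvPolynomial (Fin 2) ℂ) _ (MvPolynomial.X 0),
        algebraMap (MvPolynomial (Fin 2) ℂ) _ (MvPolynomial.X 1)), ?_, rfl, ?_⟩
    · have h := (MvPolynomial.algebraicIndependent_X (Fin 2) ℂ).map'
        (f := IsScalarTower.toAlgHom ℂ (MvPolynomial (Fin 2) ℂ)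
          (FractionRing (MvPolynomial (Fin 2) ℂ))) (IsFractionRing.injective _ _)
      have e : (![algebraMap (MvPolynomial (Fin 2) ℂ) (FractionRing (MvPolynomial (Fin 2) ℂ))
          (MvPolynomial.X 0), algebraMap (MvPolynomial (Fin 2) ℂ)
            (FractionRing (MvPolynomial (Fin 2) ℂ)) (MvPolynomial.X 1)] :
              Fin 2 → FractionRing (MvPolynomial (Fin 2) ℂ)) =
          ⇑(IsScalarTower.toAlgHom ℂ (MvPolynomial (Fin 2) ℂ)
            (FractionRing (MvPolynomial (Fin 2) ℂ))) ∘ MvPolynomial.X := by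
        ext i
        fin_cases i <;> rfl
      rw [← e] at h
      exact h
    · intro K _ _ t0 t hg ht
      have ht' : t = t0 := ht
      subst ht'
      unfold Gen at hg
      have hinj : Function.Injective (MvPolynomial.aeval ![t.1, t.2] :
          MvPolynomial (Fin 2) ℂ →ₐ[ℂ] K) := hg
      refine ⟨IsFractionRing.liftAlgHom (K := FractionRing (MvPolynomial (Fin 2) ℂ)) hinj,
        ?_, ?_, ?_, ?_⟩ <;>
      · simp [IsFractionRing.liftAlgHom_apply]
  | cons l L ih =>
    obtain ⟨hr, hn, hf, hL'⟩ := hL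
    obtain ⟨E, _, _, s0, s, hg0, hs, huniv⟩ := ih hL'
    set a : E := ang l.c s / algebraMap ℂ E (l.r : ℂ) with ha
    have hrE : algebraMap ℂ E (l.r : ℂ) ≠ 0 := by
      rw [ne_eq, map_eq_zero]
      exact_mod_cast hr.ne'
    set f : Polynomial E := Polynomial.X ^ 2 - Polynomial.C a * Polynomial.X - 1 with hfdef
    have hdeg : f.natDegree = 2 := by
      rw [hfdef]
      compute_degree!
    have hmonic : f.Monic := by
      rw [hfdef]
      monicity!
    have hnoroot : ∀ ω : E, ¬ f.IsRoot ω := by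
      intro ω hω
      obtain ⟨K, _, _, t0, t, hgt, ht, hno⟩ := tangent_chain L hL' l.c l.r hr hf
      obtain ⟨ψ, -, -, h1, h2⟩ := huniv K t0 t hgt ht
      have hroot : ω ^ 2 - a * ω - 1 = 0 := by
        have := hω
        simpa [hfdef, Polynomial.IsRoot] using this
      have hω0 : ω ≠ 0 := by
        rintro rfl
        simp at hroot
      refine hno ⟨ψ ω, ?_, ?_⟩
      · rwa [ne_eq, map_eq_zero]
      · have hang : ψ (ang l.c s) = ang l.c t := by
          simp only [ang, map_add, map_sub, map_mul, map_inv₀, h1, h2, AlgHom.commutes]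
        rw [← hang, ← AlgHom.commutes ψ, ← map_inv₀, ← map_sub, ← map_mul]
        congr 1
        have e1 : ω - ω⁻¹ = a := by
          field_simp
          linear_combination hroot
        rw [e1, ha]
        field_simp
    have hirr : Irreducible f := by
      apply (hmonic.irreducible_iff_roots_eq_zero_of_degree_le_three (by rw [hdeg])
        (by rw [hdeg]; norm_num)).mpr
      rw [Multiset.eq_zero_iff_forall_notMem]
      intro ω hω
      exact hnoroot ω (Polynomial.isRoot_of_mem_roots hω)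
    have : Fact (Irreducible f) := ⟨hirr⟩
    set φ : E →ₐ[ℂ] AdjoinRoot f := IsScalarTower.toAlgHom ℂ E (AdjoinRoot f) with hφ
    set w : AdjoinRoot f := AdjoinRoot.root f with hw
    have hφof : ∀ e : E, φ e = AdjoinRoot.of f e := fun e => rfl
    have hwroot : w ^ 2 - φ a * w - 1 = 0 := by
      have := AdjoinRoot.eval₂_root f
      rw [hfdef] at this
      simpa [hfdef, hφof, hw] using this
    have hw0 : w ≠ 0 := by
      intro h0
      rw [h0] at hwroot
      simp at hwroot
    have hweq : algebraMap ℂ (AdjoinRoot f) (l.r : ℂ) * (w - w⁻¹) =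
        ang l.c (φ s.1, φ s.2) := by
      have e1 : w - w⁻¹ = φ a := by
        field_simp
        linear_combination hwroot
      rw [e1, ← map_ang, ← AlgHom.commutes φ, ← map_mul]
      congr 1
      rw [ha]
      field_simp
    set v' : AdjoinRoot f := (-w ^ 2) ^ l.n * φ s.1 with hv'
    set q' : AdjoinRoot f := ang l.c (φ s.1, φ s.2) +
      algebraMap ℂ (AdjoinRoot f) l.c * v'⁻¹ -
      algebraMap ℂ (AdjoinRoot f) (conj l.c) * v' with hq'
    have hstep : Step l w (φ s.1, φ s.2) (v', q') := by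
      refine ⟨hw0, hweq, rfl, ?_⟩
      simp only [ang, hq']
      ring
    refine ⟨AdjoinRoot f, inferInstance, inferInstance, (φ s0.1, φ s0.2), (v', q'),
      hg0.map φ, ⟨(φ s.1, φ s.2), w, hs.map φ, hstep⟩, ?_⟩
    intro K _ _ t0 t hgt ht
    obtain ⟨t', w', ht', hst⟩ := ht
    obtain ⟨ψ, hψ1, hψ2, hψ3, hψ4⟩ := huniv K t0 t' hgt ht'
    obtain ⟨g1, g2, g3, g4⟩ := hst
    have hrK : algebraMap ℂ K (l.r : ℂ) ≠ 0 := by
      rw [ne_eq, map_eq_zero]
      exact_mod_cast hr.ne'
    have hψa : ψ a * algebraMap ℂ K (l.r : ℂ) = ang l.c t' := by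
      rw [ha, map_div₀, AlgHom.commutes, div_mul_cancel₀ _ hrK, map_ang, hψ3, hψ4]
    have hw'root : f.eval₂ (ψ : E →+* K) w' = 0 := by
      have e2 : w' ^ 2 - ψ a * w' - 1 = 0 := by
        have e3 : (w' - w'⁻¹) * algebraMap ℂ K (l.r : ℂ) =
            ψ a * algebraMap ℂ K (l.r : ℂ) := by
          rw [hψa, ← g2]
          ring
        have e4 : w' - w'⁻¹ = ψ a := mul_right_cancel₀ hrK e3
        rw [← e4]
        field_simp
        ring
      simpa [hfdef] using e2
    set Ψ : AdjoinRoot f →ₐ[ℂ] K := AdjoinRoot.liftAlgHom f ψ w' hw'root with hΨ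
    have hΨof : ∀ e : E, Ψ (φ e) = ψ e := fun e => AdjoinRoot.liftAlgHom_of f ψ w' hw'root e
    have hΨroot : Ψ w = w' := AdjoinRoot.liftAlgHom_root f ψ w' hw'root
    have hv : Ψ v' = t.1 := by
      rw [g3, hv', map_mul, map_zpow₀, map_neg, map_pow, hΨroot, hΨof, hψ3]
    refine ⟨Ψ, ?_, ?_, hv, ?_⟩
    · rw [hΨof, hψ1]
    · rw [hΨof, hψ2]
    · have e5 : Ψ q' = ang l.c t' + algebraMap ℂ K l.c * t.1⁻¹ -
          algebraMap ℂ K (conj l.c) * t.1 := by
        rw [hq', map_sub, map_add, map_mul, map_mul, map_inv₀, hv, AlgHom.commutes,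
          AlgHom.commutes, map_ang, hΨof, hΨof, hψ3, hψ4]
      rw [e5, ← g4]
      simp only [ang]
      ring

theorem no_close (L : List Letter) (hL : Red L) (hne : L ≠ []) {K : Type} [Field K]
    [Algebra ℂ K] (s0 s : K × K) (hg : Gen s0) (h : Rch L s0 s) (κ : ℂ) :
    s.1 ≠ algebraMap ℂ K κ * s0.1 ∧ s.1 ≠ algebraMap ℂ K κ * s0.1⁻¹ := by
  obtain ⟨k, _, _, _, Γ, _, val, x, hval, hx1, hx2⟩ := exists_val
  have hx0 : x ≠ 0 := by
    intro h
    rw [h, map_zero] at hx1
    exact absurd hx1 (by simp)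
  set t0 : FractionRing (PowerSeries k) × FractionRing (PowerSeries k) :=
    (algebraMap (PowerSeries k) (FractionRing (PowerSeries k)) (PowerSeries.C x),
      algebraMap (PowerSeries k) (FractionRing (PowerSeries k))
        (PowerSeries.C (x ^ 2) + PowerSeries.X)) with ht0
  have hlift : Lifts t0 (x, x ^ 2) := ⟨PowerSeries.C x, PowerSeries.C (x ^ 2) + PowerSeries.X,
    rfl, rfl, by simp, by simp, hx0⟩
  have hready : ∀ c, 1 < val (ang c ((x, x ^ 2) : k × k)) := by
    intro c
    have hle : ∀ c : ℂ, val (algebraMap ℂ k c) ≤ 1 := by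
      intro c
      rcases eq_or_ne c 0 with rfl | hc
      · simp
      · exact (hval c hc).le
    have hvx0 : val x ≠ 0 := by
      rw [ne_eq, Valuation.zero_iff]
      exact hx0
    have hA : val (x ^ 2) = val x * val x := by rw [map_pow, sq]
    have hB : val x < val x * val x := by
      calc val x = 1 * val x := (one_mul _).symm
        _ < val x * val x := mul_lt_mul_of_pos_right hx1 (zero_lt_iff.mpr hvx0)
    have hC : val (algebraMap ℂ k (conj c) * x) < val x * val x := by
      rw [map_mul]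
      calc val (algebraMap ℂ k (conj c)) * val x ≤ 1 * val x :=
            mul_le_mul_left (hle _) _
        _ = val x := one_mul _
        _ < val x * val x := hB
    have hD : val (algebraMap ℂ k c * x⁻¹) < val x * val x := by
      rw [map_mul, map_inv₀]
      calc val (algebraMap ℂ k c) * (val x)⁻¹ ≤ 1 * (val x)⁻¹ :=
            mul_le_mul_left (hle _) _
        _ = (val x)⁻¹ := one_mul _
        _ ≤ 1 := inv_le_one_of_one_le₀ hx1.le
        _ < val x := hx1
        _ < val x * val x := hB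
    have hE : val (ang c ((x, x ^ 2) : k × k)) = val x * val x := by
      simp only [ang]
      rw [Valuation.map_add_eq_of_lt_left, Valuation.map_sub_eq_of_lt_left, hA]
      · rw [hA]; exact hD
      · rw [Valuation.map_sub_eq_of_lt_left, hA]
        · exact hC
        · rw [hA]; exact hD
    rw [hE]
    exact hx1.trans hB
  obtain ⟨t, e, hRt, hLt, -, -, hlt⟩ := forward val hval L hL.forall_mem t0 (x, x ^ 2) hlift
    hx1 hready
  have hlt' := hlt hne
  obtain ⟨E, _, _, u0, u, -, hu, huniv⟩ := universal L hL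
  obtain ⟨ψ, hψ1, -, hψ3, -⟩ := huniv K s0 s hg h
  obtain ⟨χ, hχ1, -, hχ3, -⟩ := huniv _ t0 t (gen_pair hx2 (x ^ 2)) hRt
  obtain ⟨V, Q, hV, -, hV0, -, -⟩ := hLt
  have hle : ∀ c : ℂ, val (algebraMap ℂ k c) ≤ 1 := by
    intro c
    rcases eq_or_ne c 0 with rfl | hc
    · simp
    · exact (hval c hc).le
  have key : ∀ z : k, t.1 = algebraMap (PowerSeries k) (FractionRing (PowerSeries k))
      (PowerSeries.C z) → e.1 = z := by
    intro z hz
    rw [hV] at hz
    have h5 := IsFractionRing.injective (PowerSeries k) (FractionRing (PowerSeries k)) hz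
    rw [← hV0, h5]
    simp
  constructor
  · intro hκ
    have h6 : u.1 = algebraMap ℂ E κ * u0.1 := by
      apply ψ.toRingHom.injective
      change ψ u.1 = ψ (algebraMap ℂ E κ * u0.1)
      rw [map_mul, AlgHom.commutes, hψ1, hψ3, hκ]
    have h7 : t.1 = algebraMap ℂ _ κ * t0.1 := by
      rw [← hχ3, h6, map_mul, AlgHom.commutes, hχ1]
    have h8 := key (algebraMap ℂ k κ * x) (by
      rw [h7, algMap_frac, ht0]
      simp only [map_mul])
    rw [h8, map_mul] at hlt'
    refine absurd hlt' (not_lt.mpr ?_)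
    calc val (algebraMap ℂ k κ) * val x ≤ 1 * val x := mul_le_mul_left (hle _) _
      _ = val x := one_mul _
  · intro hκ
    have h6 : u.1 = algebraMap ℂ E κ * u0.1⁻¹ := by
      apply ψ.toRingHom.injective
      change ψ u.1 = ψ (algebraMap ℂ E κ * u0.1⁻¹)
      rw [map_mul, AlgHom.commutes, map_inv₀, hψ1, hψ3, hκ]
    have h7 : t.1 = algebraMap ℂ _ κ * t0.1⁻¹ := by
      rw [← hχ3, h6, map_mul, AlgHom.commutes, map_inv₀, hχ1]
    set ι : k →+* FractionRing (PowerSeries k) :=
      (algebraMap (PowerSeries k) (FractionRing (PowerSeries k))).comp PowerSeries.C with hι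
    have h8 := key (algebraMap ℂ k κ * x⁻¹) (by
      rw [h7, algMap_frac]
      change ι (algebraMap ℂ k κ) * (ι x)⁻¹ = ι (algebraMap ℂ k κ * x⁻¹)
      rw [map_mul, map_inv₀])
    rw [h8, map_mul, map_inv₀] at hlt'
    refine absurd hlt' (not_lt.mpr ?_)
    calc val (algebraMap ℂ k κ) * (val x)⁻¹ ≤ 1 * (val x)⁻¹ := mul_le_mul_left (hle _) _
      _ = (val x)⁻¹ := one_mul _
      _ ≤ 1 := inv_le_one_of_one_le₀ hx1.le
      _ ≤ val x := hx1.le

end Pool.Agent.H6.Ivrii
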